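import Mathlib

/-!
Simple matroids of rank three, representability, and coordinates.
-/

namespace Pool.Agent.Helper61_Gamma

open Set

universe u v

/-- `M` has no loops and no parallel pairs. -/
def IsSimple {α : Type u} (M : Matroid α) : Prop := ∀ x ∈ M.E, ∀ y ∈ M.E, M.Indep {x, y}

/-- `M` is representable over the field `K`: some map from the points of `M` to a vector space over
`K` is such that the independent sets of `M` are exactly the sets of points which the map sends
injectively to a linearly independent set. -/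
def RepOver (K : Type v) [Field K] {α : Type u} (M : Matroid α) : Prop :=
  ∃ (V : Type v) (_ : AddCommGroup V) (_ : Module K V) (φ : α → V),
    ∀ I ⊆ M.E, (M.Indep I ↔ LinearIndepOn K φ I)

/-- the determinant of three vectors -/
def Dt {K : Type v} [Field K] (a b c : Fin 3 → K) : K :=
  a 0 * (b 1 * c 2 - b 2 * c 1) - a 1 * (b 0 * c 2 - b 2 * c 0) + a 2 * (b 0 * c 1 - b 1 * c 0)

lemma det_eq_Dt {K : Type v} [Field K] (a b c : Fin 3 → K) :
    Matrix.det (Matrix.of ![a, b, c]) = Dt a b c := by
  rw [Matrix.det_fin_three, Dt]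
  simp
  ring

lemma linearIndependent_iff_Dt {K : Type v} [Field K] (a b c : Fin 3 → K) :
    LinearIndependent K ![a, b, c] ↔ Dt a b c ≠ 0 := by
  have h := Matrix.linearIndependent_rows_iff_isUnit (A := Matrix.of ![a, b, c])
  rw [Matrix.isUnit_iff_isUnit_det, isUnit_iff_ne_zero, det_eq_Dt] at h
  exact h

lemma linearIndepOn_iff_Dt {K : Type v} [Field K] {α : Type u} (c : α → Fin 3 → K) {s t r : α}
    (hst : s ≠ t) (hsr : s ≠ r) (htr : t ≠ r) :
    LinearIndepOn K c {s, t, r} ↔ Dt (c s) (c t) (c r) ≠ 0 := by
  have hinj : Function.Injective ![s, t, r] := by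
    intro i j hij
    fin_cases i <;> fin_cases j <;> simp_all
  have hr : range ![s, t, r] = {s, t, r} := by
    ext x
    simp [eq_comm]
    tauto
  rw [← hr, linearIndepOn_range_iff hinj, ← linearIndependent_iff_Dt]
  have : c ∘ ![s, t, r] = ![c s, c t, c r] := by
    ext i
    fin_cases i <;> rfl
  rw [this]

/-- coordinates in which a given point is `(0,0,1)` -/
lemma exists_coords {K : Type v} [Field K] {α : Type u} {M : Matroid α} (hM : RepOver K M)
    (hr : M.eRank = 3) {ω : α} (hω : M.Indep {ω}) :
    ∃ c : α → Fin 3 → K, c ω = ![0, 0, 1] ∧ ∀ I ⊆ M.E, (M.Indep I ↔ LinearIndepOn K c I) := by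
  classical
  obtain ⟨V, _, _, φ, hφ⟩ := hM
  obtain ⟨B, hB, hωB⟩ := hω.exists_isBase_superset
  have hωB' : ω ∈ B := hωB (mem_singleton ω)
  have hcard : B.encard = 3 := by rw [hB.encard_eq_eRank, hr]
  have h2 : (B \ {ω}).encard = 2 := by
    have h3 := encard_sdiff_singleton_of_mem hωB'
    rw [h3, hcard]
    rfl
  obtain ⟨b0, b1, hb01, hb⟩ := encard_eq_two.mp h2
  have hb0 : b0 ∈ B \ {ω} := by rw [hb]; simp
  have hb1 : b1 ∈ B \ {ω} := by rw [hb]; simp
  have hne0 : b0 ≠ ω := fun h => hb0.2 h
  have hne1 : b1 ≠ ω := fun h => hb1.2 h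
  have hinj : Function.Injective ![b0, b1, ω] := by
    intro i j hij
    fin_cases i <;> fin_cases j <;> simp_all
  have hrange : range ![b0, b1, ω] = B := by
    have h5 : B = insert ω (B \ {ω}) := by
      rw [insert_sdiff_singleton, insert_eq_of_mem hωB']
    rw [h5, hb]
    ext x
    simp only [mem_range, Fin.exists_fin_succ, mem_insert_iff, mem_singleton_iff]
    simp
    tauto
  have hli : LinearIndependent K (φ ∘ ![b0, b1, ω]) := by
    rw [← linearIndepOn_range_iff hinj, hrange, ← hφ B hB.subset_ground]
    exact hB.indep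
  set W := Submodule.span K (range (φ ∘ ![b0, b1, ω])) with hW
  let bW : Module.Basis (Fin 3) K W := Module.Basis.span hli
  have hmem : ∀ e ∈ M.E, φ e ∈ W := by
    intro e he
    by_contra hcon
    have heB : e ∉ B := by
      intro h
      apply hcon
      rw [hW, range_comp, hrange]
      exact Submodule.subset_span ⟨e, h, rfl⟩
    have h6 : LinearIndepOn K φ (insert e B) := by
      rw [linearIndepOn_insert heB]
      refine ⟨(hφ B hB.subset_ground).mp hB.indep, ?_⟩
      rw [hW, range_comp, hrange] at hcon
      exact hcon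
    exact heB (hB.mem_of_insert_indep ((hφ _ (insert_subset he hB.subset_ground)).mpr h6))
  let c : α → Fin 3 → K := fun e => if h : φ e ∈ W then bW.equivFun ⟨φ e, h⟩ else 0
  let g : (Fin 3 → K) →ₗ[K] V := W.subtype ∘ₗ bW.equivFun.symm.toLinearMap
  have hg : Function.Injective g := by
    intro x y hxy
    exact bW.equivFun.symm.injective (Subtype.val_injective hxy)
  have hgc : ∀ e ∈ M.E, φ e = g (c e) := by
    intro e he
    simp only [g, c, dif_pos (hmem e he)]
    simp
  refine ⟨c, ?_, ?_⟩
  · have hωE : ω ∈ M.E := hB.subset_ground hωB'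
    have h7 : g (c ω) = g ![0, 0, 1] := by
      rw [← hgc ω hωE]
      simp only [g]
      rw [LinearMap.comp_apply]
      have h8 : bW.equivFun.symm ![0, 0, 1] = bW 2 := by
        rw [Module.Basis.equivFun_symm_apply, Fin.sum_univ_three]
        simp
      have h9 : ((bW 2 : W) : V) = φ ω := congrArg Subtype.val (Module.Basis.span_apply hli 2)
      simp only [LinearEquiv.coe_coe, Submodule.subtype_apply]
      rw [h8, h9]
    exact hg h7
  · intro I hI
    rw [hφ I hI]
    have h7 : EqOn φ (g ∘ c) I := fun e he => hgc e (hI he)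
    rw [linearIndepOn_congr h7]
    exact LinearMap.linearIndepOn_iff_of_injOn g hg.injOn

end Pool.Agent.Helper61_Gamma
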