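import Mathlib
import Pool.Agent.Helper61_Gamma.Rep

/-!
Vector matroids of rank three, and the Dowling geometry of the cyclic group of order four.
-/

namespace Pool.Agent.Helper61_Gamma

open Set

universe u v w

section vec

variable {K : Type v} [Field K] {α : Type u} [Finite α]

lemma vec_aug (v : α → Fin 3 → K) ⦃I J : Set α⦄ (hI : LinearIndepOn K v I)
    (hJ : LinearIndepOn K v J) (hlt : I.ncard < J.ncard) :
    ∃ e ∈ J, e ∉ I ∧ LinearIndepOn K v (insert e I) := by
  classical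
  by_contra hcon
  push Not at hcon
  have hspan : ∀ e ∈ J, v e ∈ Submodule.span K (v '' I) := by
    intro e he
    by_cases heI : e ∈ I
    · exact Submodule.subset_span ⟨e, heI, rfl⟩
    · by_contra h
      exact hcon e he heI ((linearIndepOn_insert heI).mpr ⟨hI, h⟩)
  have hle : Submodule.span K (v '' J) ≤ Submodule.span K (v '' I) := by
    rw [Submodule.span_le]
    rintro _ ⟨e, he, rfl⟩
    exact hspan e he
  have hfin : ∀ {S : Set α}, LinearIndepOn K v S →
      Module.finrank K (Submodule.span K (v '' S)) = S.ncard := by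
    intro S hS
    have : Fintype S := Fintype.ofFinite S
    rw [image_eq_range, finrank_span_eq_card hS, ← Nat.card_eq_fintype_card]
    rfl
  have h1 := Submodule.finrank_mono hle
  rw [hfin hI, hfin hJ] at h1
  omega

/-- the matroid of a finite family of vectors in `K ^ 3` -/
noncomputable def vecMatroid (v : α → Fin 3 → K) : Matroid α :=
  (IndepMatroid.ofFinite (E := univ) finite_univ (fun I => LinearIndepOn K v I)
    (linearIndepOn_empty K v) (fun _ _ hJ hIJ => hJ.mono hIJ) (vec_aug v)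
    (fun I _ => subset_univ I)).matroid

lemma vec_indep (v : α → Fin 3 → K) (I : Set α) :
    (vecMatroid v).Indep I ↔ LinearIndepOn K v I := by
  simp [vecMatroid, IndepMatroid.ofFinite]

lemma vec_E (v : α → Fin 3 → K) : (vecMatroid v).E = univ := by
  simp [vecMatroid, IndepMatroid.ofFinite]

lemma vec_rep (v : α → Fin 3 → K) : RepOver K (vecMatroid v) :=
  ⟨Fin 3 → K, inferInstance, inferInstance, v, fun I _ => vec_indep v I⟩

lemma ne_of_Dt {a b c : Fin 3 → K} (h : Dt a b c ≠ 0) : a ≠ b ∧ a ≠ c ∧ b ≠ c := by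
  refine ⟨?_, ?_, ?_⟩
  · rintro rfl
    apply h
    rw [Dt]
    ring
  · rintro rfl
    apply h
    rw [Dt]
    ring
  · rintro rfl
    apply h
    rw [Dt]
    ring

lemma vec_extend {v : α → Fin 3 → K} (hv : ∃ s t r, Dt (v s) (v t) (v r) ≠ 0) {I : Set α}
    (hI : LinearIndepOn K v I) :
    ∃ s t r, s ≠ t ∧ s ≠ r ∧ t ≠ r ∧ I ⊆ {s, t, r} ∧ Dt (v s) (v t) (v r) ≠ 0 ∧
      (vecMatroid v).IsBase {s, t, r} := by
  obtain ⟨s, t, r, h⟩ := hv
  obtain ⟨h1, h2, h3⟩ := ne_of_Dt h
  have hst : s ≠ t := fun e => h1 (by rw [e])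
  have hsr : s ≠ r := fun e => h2 (by rw [e])
  have htr : t ≠ r := fun e => h3 (by rw [e])
  have hB : (vecMatroid v).Indep {s, t, r} := by
    rw [vec_indep, linearIndepOn_iff_Dt v hst hsr htr]
    exact h
  obtain ⟨B, hB1, hB2⟩ := hB.exists_isBase_superset
  have hBcard : ∀ B', (vecMatroid v).IsBase B' → B'.encard = 3 := by
    intro B' hB'
    rw [hB'.encard_eq_encard_of_isBase hB1]
    apply le_antisymm
    · have h4 := ((vec_indep v B).mp hB1.indep).encard_le_toENat_rank
      simpa using h4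
    · rw [← encard_eq_three.mpr ⟨s, t, r, hst, hsr, htr, rfl⟩]
      exact encard_le_encard hB2
  obtain ⟨C, hC1, hC2⟩ := ((vec_indep v I).mpr hI).exists_isBase_superset
  obtain ⟨x, y, z, hxy, hxz, hyz, rfl⟩ := encard_eq_three.mp (hBcard C hC1)
  refine ⟨x, y, z, hxy, hxz, hyz, hC2, ?_, hC1⟩
  exact (linearIndepOn_iff_Dt v hxy hxz hyz).mp ((vec_indep v _).mp hC1.indep)

lemma vec_rank {v : α → Fin 3 → K} (hv : ∃ s t r, Dt (v s) (v t) (v r) ≠ 0) :
    (vecMatroid v).eRank = 3 := by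
  obtain ⟨s, t, r, h1, h2, h3, -, -, h4⟩ := vec_extend hv (linearIndepOn_empty K v)
  rw [← h4.encard_eq_eRank]
  exact encard_eq_three.mpr ⟨s, t, r, h1, h2, h3, rfl⟩

lemma vec_simple {v : α → Fin 3 → K} [Nontrivial α]
    (hv : ∀ s t, s ≠ t → ∃ r, Dt (v s) (v t) (v r) ≠ 0) : IsSimple (vecMatroid v) := by
  have hpair : ∀ s t, s ≠ t → (vecMatroid v).Indep {s, t} := by
    intro s t hst
    obtain ⟨r, hr⟩ := hv s t hst
    obtain ⟨-, h2, h3⟩ := ne_of_Dt hr
    rw [vec_indep]
    have h4 := (linearIndepOn_iff_Dt v hst (fun e => h2 (by rw [e]))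
      (fun e => h3 (by rw [e]))).mpr hr
    refine h4.mono ?_
    intro x hx
    simp only [mem_insert_iff, mem_singleton_iff] at hx ⊢
    tauto
  intro s _ t _
  by_cases hst : s = t
  · subst hst
    obtain ⟨t, ht⟩ := exists_ne s
    refine (hpair s t ht.symm).subset ?_
    intro x hx
    simp only [mem_insert_iff, mem_singleton_iff, or_self] at hx ⊢
    exact Or.inl hx
  · exact hpair s t hst

lemma vec_transfer {K' : Type w} [Field K'] {v : α → Fin 3 → K} {v' : α → Fin 3 → K'}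
    (h : ∀ s t r, Dt (v s) (v t) (v r) = 0 ↔ Dt (v' s) (v' t) (v' r) = 0)
    (hv : ∃ s t r, Dt (v s) (v t) (v r) ≠ 0) : RepOver K' (vecMatroid v) := by
  refine ⟨Fin 3 → K', inferInstance, inferInstance, v', ?_⟩
  intro I _
  rw [vec_indep]
  constructor
  · intro hI
    obtain ⟨s, t, r, h1, h2, h3, h4, h5, -⟩ := vec_extend hv hI
    exact ((linearIndepOn_iff_Dt v' h1 h2 h3).mpr (fun h0 => h5 ((h s t r).mpr h0))).mono h4
  · intro hI
    have hv' : ∃ s t r, Dt (v' s) (v' t) (v' r) ≠ 0 := by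
      obtain ⟨s, t, r, h0⟩ := hv
      exact ⟨s, t, r, fun h1 => h0 ((h s t r).mpr h1)⟩
    obtain ⟨s, t, r, h1, h2, h3, h4, h5, -⟩ := vec_extend hv' hI
    exact ((linearIndepOn_iff_Dt v h1 h2 h3).mpr (fun h0 => h5 ((h s t r).mp h0))).mono h4

end vec

end Pool.Agent.Helper61_Gamma
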