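import Mathlib

/-!
Bivariate polynomials over a field and lines `y = m x + k`.
-/

open MvPolynomial

namespace Pool.Agent.Helper61_Gamma

variable {K : Type*} [Field K]

/-- The linear polynomial `y - m x - k`. -/
noncomputable def lin (m k : K) : MvPolynomial (Fin 2) K := X 1 - C m * X 0 - C k

/-- Restriction of a bivariate polynomial to the line `y = m x + k`, parametrised by `x`. -/
noncomputable def ev (m k : K) : MvPolynomial (Fin 2) K →ₐ[K] Polynomial K :=
  aeval ![Polynomial.X, Polynomial.C m * Polynomial.X + Polynomial.C k]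

@[simp] lemma ev_X0 (m k : K) : ev m k (X 0) = Polynomial.X := by
  simp [ev]

@[simp] lemma ev_X1 (m k : K) : ev m k (X 1) = Polynomial.C m * Polynomial.X + Polynomial.C k := by
  simp [ev]

@[simp] lemma ev_C (m k c : K) : ev m k (C c) = Polynomial.C c := by
  simp [ev]

lemma ev_lin (m k m' k' : K) :
    ev m k (lin m' k') = Polynomial.C (m - m') * Polynomial.X + Polynomial.C (k - k') := by
  simp only [lin, map_sub, map_mul, ev_X0, ev_X1, ev_C]
  ring

@[simp] lemma ev_lin_self (m k : K) : ev m k (lin m k) = 0 := by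
  simp [ev_lin]

lemma lin_dvd_iff (m k : K) (F : MvPolynomial (Fin 2) K) : lin m k ∣ F ↔ ev m k F = 0 := by
  constructor
  · rintro ⟨G, rfl⟩
    simp
  · intro h
    set I : Ideal (MvPolynomial (Fin 2) K) := Ideal.span {lin m k} with hI
    let φ : Polynomial K →ₐ[K] MvPolynomial (Fin 2) K := Polynomial.aeval (X 0)
    have key : (Ideal.Quotient.mkₐ K I) = ((Ideal.Quotient.mkₐ K I).comp φ).comp (ev m k) := by
      apply MvPolynomial.algHom_ext
      intro i
      fin_cases i
      · simp [φ]
      · simp only [φ, Fin.mk_one, AlgHom.comp_apply, ev_X1, map_add, map_mul, Polynomial.aeval_X,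
          Polynomial.aeval_C]
        have h0 : (Ideal.Quotient.mkₐ K I) (lin m k) = 0 := by
          rw [Ideal.Quotient.mkₐ_eq_mk, Ideal.Quotient.eq_zero_iff_mem]
          exact Ideal.subset_span rfl
        simp only [lin, map_sub, map_mul] at h0
        have h1 : ∀ c : K, (algebraMap K (MvPolynomial (Fin 2) K)) c = C c := fun c => rfl
        rw [h1, h1]
        linear_combination h0
    have h2 : (Ideal.Quotient.mkₐ K I) F = 0 := by
      rw [key]
      simp [h]
    rw [Ideal.Quotient.mkₐ_eq_mk, Ideal.Quotient.eq_zero_iff_mem, hI,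
      Ideal.mem_span_singleton] at h2
    exact h2

lemma lin_ne_zero (m k : K) : lin m k ≠ 0 := by
  intro h
  have := ev_lin m (k+1) m k
  rw [h] at this
  simp at this

lemma lin_prime (m k : K) : Prime (lin m k) := by
  refine ⟨lin_ne_zero m k, ?_, ?_⟩
  · intro hu
    have := hu.map (ev m k)
    simp at this
  · intro a b hab
    rw [lin_dvd_iff] at hab
    rw [lin_dvd_iff, lin_dvd_iff]
    simpa using hab

lemma not_lin_dvd_lin {m k m' k' : K} (h : m ≠ m' ∨ k ≠ k') : ¬ lin m k ∣ lin m' k' := by
  rw [lin_dvd_iff, ev_lin]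
  intro h0
  have h1 := congrArg (fun p => Polynomial.coeff p 1) h0
  have h2 := congrArg (fun p => Polynomial.coeff p 0) h0
  simp at h1 h2
  rcases h with h | h
  · exact h (sub_eq_zero.mp h1)
  · exact h (sub_eq_zero.mp h2)

lemma isRelPrime_lin {m k m' k' : K} (h : m ≠ m' ∨ k ≠ k') : IsRelPrime (lin m k) (lin m' k') :=
  (lin_prime m k).irreducible.isRelPrime_iff_not_dvd.mpr (not_lin_dvd_lin h)

lemma prod_lin_dvd {ι : Type*} (A : Finset ι) (m k : ι → K)
    (hinj : ∀ s ∈ A, ∀ t ∈ A, s ≠ t → m s ≠ m t ∨ k s ≠ k t) (F : MvPolynomial (Fin 2) K)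
    (h : ∀ s ∈ A, ev (m s) (k s) F = 0) : ∏ s ∈ A, lin (m s) (k s) ∣ F := by
  apply Finset.prod_dvd_of_isRelPrime
  · intro s hs t ht hst
    exact isRelPrime_lin (hinj s hs t ht hst)
  · intro s hs
    exact (lin_dvd_iff _ _ _).mpr (h s hs)

lemma totalDegree_lin_le (m k : K) : (lin m k).totalDegree ≤ 1 := by
  unfold lin
  refine (totalDegree_sub _ _).trans (max_le ((totalDegree_sub _ _).trans (max_le ?_ ?_)) ?_)
  · simp
  · refine (totalDegree_mul _ _).trans ?_
    simp
  · simp

lemma totalDegree_lin (m k : K) : (lin m k).totalDegree = 1 := by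
  apply le_antisymm (totalDegree_lin_le m k)
  by_contra h
  push Not at h
  have h0 : (lin m k).totalDegree = 0 := by omega
  rw [totalDegree_eq_zero_iff_eq_C] at h0
  have h1 := ev_lin_self m k
  rw [h0] at h1
  simp only [ev_C, Polynomial.C_eq_zero] at h1
  rw [h1] at h0
  simp only [map_zero] at h0
  exact lin_ne_zero m k h0

lemma totalDegree_prod_lin {ι : Type*} (A : Finset ι) (m k : ι → K) :
    (∏ s ∈ A, lin (m s) (k s)).totalDegree = A.card := by
  classical
  induction A using Finset.induction_on with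
  | empty => simp
  | insert a s ha ih =>
    rw [Finset.prod_insert ha, totalDegree_mul_of_isDomain (lin_ne_zero _ _), ih,
      totalDegree_lin, Finset.card_insert_of_notMem ha, add_comm]
    exact Finset.prod_ne_zero_iff.mpr fun _ _ => lin_ne_zero _ _

lemma prod_lin_ne_zero {ι : Type*} (A : Finset ι) (m k : ι → K) :
    (∏ s ∈ A, lin (m s) (k s)) ≠ 0 :=
  Finset.prod_ne_zero_iff.mpr fun _ _ => lin_ne_zero _ _

lemma natDegree_ev_le (m k : K) (F : MvPolynomial (Fin 2) K) :
    (ev m k F).natDegree ≤ F.totalDegree := by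
  have := MvPolynomial.aeval_natDegree_le (n := 1) F le_rfl
    ![Polynomial.X, Polynomial.C m * Polynomial.X + Polynomial.C k] (by
      intro i
      fin_cases i
      · simp
      · simp only [Fin.mk_one, Matrix.cons_val_one, Matrix.cons_val_fin_one]
        exact Polynomial.natDegree_linear_le)
  simpa [ev] using this

end Pool.Agent.Helper61_Gamma
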