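import Mathlib
import Pool.Agent.Helper61_Gamma.Lin

/-!
Dimension of the space of bivariate polynomials of bounded degree.
-/

open MvPolynomial

namespace Pool.Agent.Helper61_Gamma

variable {K : Type*} [Field K]

lemma sum_range_sub (D : ℕ) : 2 * ∑ i ∈ Finset.range (D + 1), (D + 1 - i) = (D + 1) * (D + 2) := by
  induction D with
  | zero => simp
  | succ n ih =>
    rw [Finset.sum_range_succ']
    have : ∀ i, n + 1 + 1 - (i + 1) = n + 1 - i := fun i => by omega
    simp only [this]
    rw [mul_add, ih, Nat.sub_zero]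
    ring

lemma card_deg_le (D : ℕ) :
    2 * Nat.card {n : Fin 2 →₀ ℕ // (n.sum fun _ e => e) ≤ D} = (D + 1) * (D + 2) := by
  rw [← sum_range_sub]
  congr 1
  let T : Finset (Σ _ : ℕ, ℕ) := (Finset.range (D + 1)).sigma fun i => Finset.range (D + 1 - i)
  have hT : T.card = ∑ i ∈ Finset.range (D + 1), (D + 1 - i) := by
    simp [T, Finset.card_sigma]
  rw [← hT]
  have e : {n : Fin 2 →₀ ℕ // (n.sum fun _ e => e) ≤ D} ≃ T := by
    refine
      { toFun := fun n => ⟨⟨n.1 0, n.1 1⟩, ?_⟩
        invFun := fun x => ⟨Finsupp.equivFunOnFinite.symm ![x.1.1, x.1.2], ?_⟩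
        left_inv := ?_
        right_inv := ?_ }
    · have h := n.2
      rw [Finsupp.sum_fintype _ _ (fun _ => rfl), Fin.sum_univ_two] at h
      simp only [T, Finset.mem_sigma, Finset.mem_range]
      omega
    · have h := x.2
      simp only [T, Finset.mem_sigma, Finset.mem_range] at h
      rw [Finsupp.sum_fintype _ _ (fun _ => rfl), Fin.sum_univ_two]
      simp only [Finsupp.equivFunOnFinite_symm_apply_apply, Matrix.cons_val_zero,
        Matrix.cons_val_one]
      omega
    · intro n
      ext i
      fin_cases i <;> simp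
    · intro x
      rfl
  rw [Nat.card_congr e]
  simp

lemma finrank_restrict (D : ℕ) :
    2 * Module.finrank K (restrictTotalDegree (Fin 2) K D) = (D + 1) * (D + 2) := by
  have := Module.finrank_eq_nat_card_basis
    (basisRestrictSupport (σ := Fin 2) K { n | (n.sum fun _ e => e) ≤ D })
  rw [← card_deg_le]
  congr 1

end Pool.Agent.Helper61_Gamma
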