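import Mathlib
import Pool.Agent.Helper61_Gamma.Dim

/-!
Polynomial vector fields tangent to a finite set of lines `y = m x + k`; the cost of adding a line.
-/

open MvPolynomial

namespace Pool.Agent.Helper61_Gamma

variable {K : Type*} [Field K] {ι : Type*}

/-- The product of two submodules is linearly equivalent to the product module. -/
def prodSubEquiv {M N : Type*} [AddCommGroup M] [Module K M] [AddCommGroup N] [Module K N]
    (p : Submodule K M) (q : Submodule K N) : (p.prod q) ≃ₗ[K] (p × q) where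
  toFun x := (⟨x.1.1, x.2.1⟩, ⟨x.1.2, x.2.2⟩)
  invFun y := ⟨(y.1.1, y.2.1), ⟨y.1.2, y.2.2⟩⟩
  map_add' _ _ := rfl
  map_smul' _ _ := rfl
  left_inv _ := rfl
  right_inv _ := rfl

/-- The tangency defect of the vector field `θ` along the line `y = m x + k`. -/
noncomputable def tan (m k : K) :
    (MvPolynomial (Fin 2) K × MvPolynomial (Fin 2) K) →ₗ[K] Polynomial K :=
  (ev m k).toLinearMap ∘ₗ (LinearMap.snd K _ _ - m • LinearMap.fst K _ _)

lemma tan_apply (m k : K) (θ : MvPolynomial (Fin 2) K × MvPolynomial (Fin 2) K) :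
    tan m k θ = ev m k (θ.2 - C m * θ.1) := by
  simp [tan, MvPolynomial.smul_eq_C_mul]

lemma tan_apply' (m k : K) (θ : MvPolynomial (Fin 2) K × MvPolynomial (Fin 2) K) :
    tan m k θ = ev m k θ.2 - Polynomial.C m * ev m k θ.1 := by
  simp [tan_apply]

/-- Vector fields of degree at most `D` tangent to the lines indexed by `A`. -/
noncomputable def VF (A : Finset ι) (m k : ι → K) (D : ℕ) :
    Submodule K (MvPolynomial (Fin 2) K × MvPolynomial (Fin 2) K) :=
  ((restrictTotalDegree (Fin 2) K D).prod (restrictTotalDegree (Fin 2) K D)) ⊓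
    ⨅ s ∈ A, LinearMap.ker (tan (m s) (k s))

lemma mem_VF {A : Finset ι} {m k : ι → K} {D : ℕ}
    {θ : MvPolynomial (Fin 2) K × MvPolynomial (Fin 2) K} :
    θ ∈ VF A m k D ↔ (θ.1.totalDegree ≤ D ∧ θ.2.totalDegree ≤ D) ∧
      ∀ s ∈ A, tan (m s) (k s) θ = 0 := by
  simp [VF, Submodule.mem_prod, mem_restrictTotalDegree]

lemma VF_le (A : Finset ι) (m k : ι → K) (D : ℕ) :
    VF A m k D ≤ (restrictTotalDegree (Fin 2) K D).prod (restrictTotalDegree (Fin 2) K D) :=
  inf_le_left

instance (D : ℕ) : Module.Finite K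
    ((restrictTotalDegree (Fin 2) K D).prod (restrictTotalDegree (Fin 2) K D) : Submodule K _) :=
  Module.Finite.equiv (prodSubEquiv _ _).symm

lemma finrank_prod_restrict (D : ℕ) : Module.finrank K
    ((restrictTotalDegree (Fin 2) K D).prod (restrictTotalDegree (Fin 2) K D) : Submodule K _) =
    (D + 1) * (D + 2) := by
  rw [(prodSubEquiv _ _).finrank_eq, Module.finrank_prod, ← finrank_restrict (K := K)]
  ring

instance (A : Finset ι) (m k : ι → K) (D : ℕ) : Module.Finite K (VF A m k D) :=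
  Submodule.finiteDimensional_of_le (VF_le A m k D)

lemma VF_empty_finrank (m k : ι → K) (D : ℕ) :
    Module.finrank K (VF ∅ m k D) = (D + 1) * (D + 2) := by
  have : VF ∅ m k D =
      (restrictTotalDegree (Fin 2) K D).prod (restrictTotalDegree (Fin 2) K D) := by
    simp [VF]
  rw [this, finrank_prod_restrict]

section step

variable [DecidableEq K]

/-- The abscissa of the intersection of the lines `(m₀, k₀)` and `(m₁, k₁)`. -/
noncomputable def xco (m₀ k₀ m₁ k₁ : K) : K := (k₁ - k₀) / (m₀ - m₁)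

variable {A : Finset ι} {m k : ι → K} {D : ℕ} {m₀ k₀ : K}
  {θ : MvPolynomial (Fin 2) K × MvPolynomial (Fin 2) K}

/-- degree drop caused by parallel lines -/
lemma tan_mem_degreeLT (hinj : ∀ s ∈ A, ∀ t ∈ A, s ≠ t → m s ≠ m t ∨ k s ≠ k t)
    (hθ : θ ∈ VF A m k D) :
    tan m₀ k₀ θ ∈ Polynomial.degreeLT K (D + 1 - (A.filter (fun t => m t = m₀)).card) := by
  set B := A.filter (fun t => m t = m₀) with hB
  rw [Polynomial.mem_degreeLT]
  obtain ⟨⟨h1, h2⟩, h3⟩ := mem_VF.mp hθ
  set G := θ.2 - C m₀ * θ.1 with hG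
  have hGdeg : G.totalDegree ≤ D := by
    refine (totalDegree_sub _ _).trans (max_le h2 ?_)
    refine (totalDegree_mul _ _).trans ?_
    simpa using h1
  have hdvd : ∏ s ∈ B, lin (m s) (k s) ∣ G := by
    apply prod_lin_dvd
    · intro s hs t ht hst
      exact hinj s (Finset.mem_of_mem_filter s hs) t (Finset.mem_of_mem_filter t ht) hst
    · intro s hs
      have hs' := Finset.mem_filter.mp hs
      have := h3 s hs'.1
      rw [tan_apply, hs'.2] at this
      rw [hs'.2]
      exact this
  obtain ⟨q, hq⟩ := hdvd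
  rw [tan_apply, ← hG]
  by_cases hq0 : q = 0
  · rw [hq, hq0]
    simp only [mul_zero, map_zero, Polynomial.degree_zero]
    exact WithBot.bot_lt_coe _
  · have hdeg : G.totalDegree = B.card + q.totalDegree := by
      rw [hq, totalDegree_mul_of_isDomain (prod_lin_ne_zero _ _ _) hq0, totalDegree_prod_lin]
    have hev : ev m₀ k₀ G = Polynomial.C (∏ s ∈ B, (k₀ - k s)) * ev m₀ k₀ q := by
      rw [hq, map_mul, map_prod, map_prod]
      congr 1
      apply Finset.prod_congr rfl
      intro s hs
      have hs' := Finset.mem_filter.mp hs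
      rw [ev_lin, hs'.2]
      simp
    rw [hev]
    refine lt_of_le_of_lt Polynomial.degree_le_natDegree ?_
    have h4 := natDegree_ev_le m₀ k₀ q
    have h6 := Polynomial.natDegree_C_mul_le (∏ s ∈ B, (k₀ - k s)) (ev m₀ k₀ q)
    have h5 : (Polynomial.C (∏ s ∈ B, (k₀ - k s)) * ev m₀ k₀ q).natDegree < D + 1 - B.card := by
      omega
    exact_mod_cast h5

/-- vanishing order at an intersection point -/
lemma pow_dvd_tan (hinj : ∀ s ∈ A, ∀ t ∈ A, s ≠ t → m s ≠ m t ∨ k s ≠ k t)
    (hθ : θ ∈ VF A m k D) (x : K) :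
    (Polynomial.X - Polynomial.C x) ^
      (((A.filter (fun t => m t ≠ m₀)).filter (fun t => xco m₀ k₀ (m t) (k t) = x)).card - 1) ∣
      tan m₀ k₀ θ := by
  set B := (A.filter (fun t => m t ≠ m₀)).filter (fun t => xco m₀ k₀ (m t) (k t) = x) with hB
  rcases Nat.eq_zero_or_pos B.card with h0 | hpos
  · rw [h0]
    simp
  obtain ⟨-, h3⟩ := mem_VF.mp hθ
  have hmem : ∀ t ∈ B, t ∈ A ∧ m t ≠ m₀ ∧ k t = k₀ + (m₀ - m t) * x := by
    intro t ht
    have ht1 := Finset.mem_filter.mp ht
    have ht2 := Finset.mem_filter.mp ht1.1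
    refine ⟨ht2.1, ht2.2, ?_⟩
    have hne : m₀ - m t ≠ 0 := sub_ne_zero.mpr (Ne.symm ht2.2)
    have := ht1.2
    rw [xco, div_eq_iff hne] at this
    linear_combination this
  set y₀ : K := m₀ * x + k₀ with hy
  set Φ : MvPolynomial (Fin 2) K := (X 0 - C x) * θ.2 - (X 1 - C y₀) * θ.1 with hΦ
  have hdvd : ∏ t ∈ B, lin (m t) (k t) ∣ Φ := by
    apply prod_lin_dvd
    · intro s hs t ht hst
      exact hinj s (hmem s hs).1 t (hmem t ht).1 hst
    · intro t ht
      obtain ⟨htA, hne, hk⟩ := hmem t ht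
      have h4 := h3 t htA
      rw [tan_apply'] at h4
      simp only [hΦ, map_sub, map_mul, ev_X0, ev_X1, ev_C]
      have h5 : (Polynomial.C (m t) * Polynomial.X + Polynomial.C (k t) - Polynomial.C y₀ :
          Polynomial K) = Polynomial.C (m t) * (Polynomial.X - Polynomial.C x) := by
        rw [hk, hy]
        simp only [map_add, map_mul, map_sub]
        ring
      rw [h5]
      linear_combination (Polynomial.X - Polynomial.C x) * h4
  obtain ⟨q, hq⟩ := hdvd
  have hev : ev m₀ k₀ Φ = (Polynomial.X - Polynomial.C x) * tan m₀ k₀ θ := by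
    rw [tan_apply']
    simp only [hΦ, map_sub, map_mul, ev_X0, ev_X1, ev_C]
    rw [hy]
    simp only [map_add, map_mul]
    ring
  have hev2 : ev m₀ k₀ Φ = (Polynomial.X - Polynomial.C x) ^ B.card *
      (Polynomial.C (∏ t ∈ B, (m₀ - m t)) * ev m₀ k₀ q) := by
    rw [hq, map_mul, map_prod, map_prod, ← mul_assoc]
    congr 1
    rw [← Finset.prod_const, ← Finset.prod_mul_distrib]
    apply Finset.prod_congr rfl
    intro t ht
    obtain ⟨htA, hne, hk⟩ := hmem t ht
    rw [ev_lin, hk]
    simp only [map_add, map_mul, map_sub]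
    ring
  obtain ⟨b, hb⟩ : ∃ b, B.card = b + 1 := ⟨B.card - 1, by omega⟩
  rw [hb, Nat.add_sub_cancel]
  rw [hev2, hb, pow_succ', mul_assoc] at hev
  have := mul_left_cancel₀ (Polynomial.X_sub_C_ne_zero x) hev
  rw [← this]
  exact dvd_mul_right _ _

omit [DecidableEq K] in
lemma finrank_le_of_dvd (P : Polynomial K) (hP : P.Monic) (n : ℕ)
    (S : Submodule K (Polynomial K)) (hS : ∀ u ∈ S, P ∣ u ∧ u ∈ Polynomial.degreeLT K n) :
    Module.finrank K S ≤ n - P.natDegree := by
  have h1 : Module.finrank K (Polynomial.degreeLT K (n - P.natDegree)) = n - P.natDegree := by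
    rw [(Polynomial.degreeLTEquiv K _).finrank_eq, Module.finrank_fin_fun]
  have hfin : Module.Finite K (Polynomial.degreeLT K (n - P.natDegree)) :=
    Module.Finite.equiv (Polynomial.degreeLTEquiv K _).symm
  have h2 : S ≤ (Polynomial.degreeLT K (n - P.natDegree)).map (LinearMap.mulLeft K P) := by
    intro u hu
    obtain ⟨⟨v, rfl⟩, hu2⟩ := hS u hu
    refine ⟨v, ?_, rfl⟩
    rw [SetLike.mem_coe, Polynomial.mem_degreeLT]
    by_cases hv : v = 0
    · rw [hv, Polynomial.degree_zero]
      exact WithBot.bot_lt_coe _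
    · rw [Polynomial.mem_degreeLT, Polynomial.degree_eq_natDegree (mul_ne_zero hP.ne_zero hv),
        Polynomial.natDegree_mul hP.ne_zero hv] at hu2
      rw [Polynomial.degree_eq_natDegree hv]
      norm_cast at hu2 ⊢
      omega
  calc Module.finrank K S
      ≤ Module.finrank K ((Polynomial.degreeLT K (n - P.natDegree)).map (LinearMap.mulLeft K P)) :=
        Submodule.finrank_mono h2
    _ ≤ Module.finrank K (Polynomial.degreeLT K (n - P.natDegree)) := Submodule.finrank_map_le _ _
    _ = n - P.natDegree := h1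

/-- number of distinct finite intersection points of the line `(m₀, k₀)` with the lines of `A` -/
noncomputable def kap (A : Finset ι) (m k : ι → K) (m₀ k₀ : K) : ℕ :=
  ((A.filter (fun t => m t ≠ m₀)).image (fun t => xco m₀ k₀ (m t) (k t))).card

lemma kap_le (A : Finset ι) (m k : ι → K) (m₀ k₀ : K) : kap A m k m₀ k₀ ≤ A.card :=
  Finset.card_image_le.trans (Finset.card_filter_le _ _)

lemma finrank_range_le (hinj : ∀ s ∈ A, ∀ t ∈ A, s ≠ t → m s ≠ m t ∨ k s ≠ k t) :
    Module.finrank K (LinearMap.range ((tan m₀ k₀).domRestrict (VF A m k D))) ≤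
      D + 1 - (A.card - kap A m k m₀ k₀) := by
  set B := A.filter (fun t => m t ≠ m₀) with hB
  set I := B.image (fun t => xco m₀ k₀ (m t) (k t)) with hI
  set P : Polynomial K := ∏ x ∈ I, (Polynomial.X - Polynomial.C x) ^
      ((B.filter (fun t => xco m₀ k₀ (m t) (k t) = x)).card - 1) with hP
  have hPm : P.Monic := Polynomial.monic_prod_of_monic _ _ fun x _ =>
    (Polynomial.monic_X_sub_C x).pow _
  have hdeg : P.natDegree = B.card - I.card := by
    rw [hP, Polynomial.natDegree_prod_of_monic _ _ fun x _ => (Polynomial.monic_X_sub_C x).pow _]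
    simp only [Polynomial.natDegree_pow, Polynomial.natDegree_X_sub_C, mul_one]
    have h1 : B.card = ∑ x ∈ I, (B.filter (fun t => xco m₀ k₀ (m t) (k t) = x)).card :=
      Finset.card_eq_sum_card_image _ _
    have h2 : ∑ x ∈ I, ((B.filter (fun t => xco m₀ k₀ (m t) (k t) = x)).card - 1) + I.card =
        ∑ x ∈ I, (B.filter (fun t => xco m₀ k₀ (m t) (k t) = x)).card := by
      rw [Finset.card_eq_sum_ones, ← Finset.sum_add_distrib]
      apply Finset.sum_congr rfl
      intro x hx
      obtain ⟨t, ht, rfl⟩ := Finset.mem_image.mp hx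
      have : 0 < (B.filter (fun t' => xco m₀ k₀ (m t') (k t') = xco m₀ k₀ (m t) (k t))).card :=
        Finset.card_pos.mpr ⟨t, Finset.mem_filter.mpr ⟨ht, rfl⟩⟩
      omega
    omega
  have hsplit : (A.filter (fun t => m t = m₀)).card + B.card = A.card :=
    Finset.card_filter_add_card_filter_not _
  have hIB : I.card ≤ B.card := Finset.card_image_le
  have hmain := finrank_le_of_dvd P hPm (D + 1 - (A.filter (fun t => m t = m₀)).card)
    (LinearMap.range ((tan m₀ k₀).domRestrict (VF A m k D))) (by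
      rintro u ⟨⟨θ, hθ⟩, rfl⟩
      refine ⟨?_, tan_mem_degreeLT hinj hθ⟩
      apply Finset.prod_dvd_of_coprime
      · intro x _ y _ hxy
        exact IsCoprime.pow (Polynomial.pairwise_coprime_X_sub_C Function.injective_id hxy)
      · intro x _
        exact pow_dvd_tan hinj hθ x)
  rw [hdeg] at hmain
  have : kap A m k m₀ k₀ = I.card := rfl
  rw [this]
  omega

/-- Adding one line costs at most `D + 1 - (|A| - κ)` dimensions. -/
theorem finrank_VF_le_insert [DecidableEq ι] (s : ι)
    (hinj : ∀ s ∈ A, ∀ t ∈ A, s ≠ t → m s ≠ m t ∨ k s ≠ k t) :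
    Module.finrank K (VF A m k D) ≤
      Module.finrank K (VF (insert s A) m k D) + (D + 1 - (A.card - kap A m k (m s) (k s))) := by
  have h1 := LinearMap.finrank_range_add_finrank_ker ((tan (m s) (k s)).domRestrict (VF A m k D))
  have h2 := finrank_range_le (D := D) (m₀ := m s) (k₀ := k s) hinj
  have h3 : Module.finrank K (LinearMap.ker ((tan (m s) (k s)).domRestrict (VF A m k D))) ≤
      Module.finrank K (VF (insert s A) m k D) := by
    rw [← Submodule.finrank_map_subtype_eq]
    apply Submodule.finrank_mono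
    rintro θ ⟨⟨θ', hθ'⟩, hk, rfl⟩
    rw [SetLike.mem_coe, LinearMap.mem_ker, LinearMap.domRestrict_apply] at hk
    obtain ⟨hd, ht⟩ := mem_VF.mp hθ'
    refine mem_VF.mpr ⟨hd, ?_⟩
    intro t htA
    rcases Finset.mem_insert.mp htA with rfl | h
    · exact hk
    · exact ht t h
  omega

end step

end Pool.Agent.Helper61_Gamma
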