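import Mathlib
import Pool.Agent.Helper61_Gamma.Step

/-!
Upper bound for the dimension of the space of tangent vector fields, in terms of the minimal degree.
-/

open MvPolynomial

namespace Pool.Agent.Helper61_Gamma

variable {K : Type*} [Field K] {ι : Type*}

/-- degree of a vector field -/
noncomputable def mdeg (θ : MvPolynomial (Fin 2) K × MvPolynomial (Fin 2) K) : ℕ :=
  max θ.1.totalDegree θ.2.totalDegree

/-- multiplication of a vector field by a polynomial -/
noncomputable def pmul (h : MvPolynomial (Fin 2) K)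
    (θ : MvPolynomial (Fin 2) K × MvPolynomial (Fin 2) K) :
    MvPolynomial (Fin 2) K × MvPolynomial (Fin 2) K := (h * θ.1, h * θ.2)

lemma mdeg_pmul {h : MvPolynomial (Fin 2) K} (hh : h ≠ 0)
    {θ : MvPolynomial (Fin 2) K × MvPolynomial (Fin 2) K} (hθ : θ ≠ 0) :
    mdeg (pmul h θ) = h.totalDegree + mdeg θ := by
  obtain ⟨f, g⟩ := θ
  simp only [mdeg, pmul]
  by_cases hf : f = 0
  · have hg : g ≠ 0 := by
      rintro rfl
      exact hθ (by rw [hf]; rfl)
    rw [hf, totalDegree_mul_of_isDomain hh hg]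
    simp
  · by_cases hg : g = 0
    · rw [hg, totalDegree_mul_of_isDomain hh hf]
      simp
    · rw [totalDegree_mul_of_isDomain hh hf, totalDegree_mul_of_isDomain hh hg]
      omega

lemma pmul_ne_zero {h : MvPolynomial (Fin 2) K} (hh : h ≠ 0)
    {θ : MvPolynomial (Fin 2) K × MvPolynomial (Fin 2) K} (hθ : θ ≠ 0) : pmul h θ ≠ 0 := by
  intro h0
  apply hθ
  have h1 : h * θ.1 = 0 := congrArg Prod.fst h0
  have h2 : h * θ.2 = 0 := congrArg Prod.snd h0
  exact Prod.ext ((mul_eq_zero.mp h1).resolve_left hh) ((mul_eq_zero.mp h2).resolve_left hh)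

lemma tan_pmul (m k : K) (h : MvPolynomial (Fin 2) K)
    (θ : MvPolynomial (Fin 2) K × MvPolynomial (Fin 2) K) :
    tan m k (pmul h θ) = ev m k h * tan m k θ := by
  rw [tan_apply', tan_apply']
  simp only [pmul, map_mul]
  ring

lemma tan_eq_zero_iff (m k : K) (θ : MvPolynomial (Fin 2) K × MvPolynomial (Fin 2) K) :
    tan m k θ = 0 ↔ lin m k ∣ θ.2 - C m * θ.1 := by
  rw [tan_apply, lin_dvd_iff]

/-- every nonzero vector field is a multiple of a primitive one -/
lemma exists_primitive {θ : MvPolynomial (Fin 2) K × MvPolynomial (Fin 2) K} (hθ : θ ≠ 0) :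
    ∃ (c : MvPolynomial (Fin 2) K) (φ : MvPolynomial (Fin 2) K × MvPolynomial (Fin 2) K),
      c ≠ 0 ∧ IsRelPrime φ.1 φ.2 ∧ θ = pmul c φ := by
  obtain ⟨f, g⟩ := θ
  by_cases hf : f = 0
  · have hg : g ≠ 0 := by
      rintro rfl
      exact hθ (by rw [hf]; rfl)
    refine ⟨g, (0, 1), hg, ?_, ?_⟩
    · exact isRelPrime_one_right
    · simp [pmul, hf]
  · obtain ⟨a, b, c, hab, rfl, rfl⟩ :=
      UniqueFactorizationMonoid.exists_reduced_factors f hf g
    refine ⟨c, (a, b), ?_, hab, rfl⟩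
    rintro rfl
    simp at hf

lemma ne_zero_of_isRelPrime {φ : MvPolynomial (Fin 2) K × MvPolynomial (Fin 2) K}
    (h : IsRelPrime φ.1 φ.2) : φ ≠ 0 := by
  rintro rfl
  have := h (dvd_refl _) (dvd_refl _)
  simp at this

/-- vector fields parallel to a primitive one are multiples of it -/
lemma parallel_primitive {φ θ : MvPolynomial (Fin 2) K × MvPolynomial (Fin 2) K}
    (h : IsRelPrime φ.1 φ.2) (hp : φ.1 * θ.2 = φ.2 * θ.1) : ∃ e, θ = pmul e φ := by
  obtain ⟨f, g⟩ := θ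
  obtain ⟨a, b⟩ := φ
  simp only at h hp
  by_cases ha : a = 0
  · subst ha
    have hb : IsUnit b := h (dvd_zero _) (dvd_refl _)
    obtain ⟨c, hc⟩ := hb.exists_left_inv
    have hf : f = 0 := by
      have : b * f = 0 := by rw [← hp]; simp
      exact (mul_eq_zero.mp this).resolve_left hb.ne_zero
    refine ⟨g * c, ?_⟩
    simp only [pmul, hf, mul_zero, mul_assoc, hc, mul_one]
  · have h1 : a ∣ f := by
      have : a ∣ b * f := ⟨g, hp.symm⟩
      exact h.dvd_of_dvd_mul_left this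
    obtain ⟨e, rfl⟩ := h1
    refine ⟨e, ?_⟩
    have : g = e * b := by
      apply mul_left_cancel₀ ha
      rw [hp]
      ring
    simp only [pmul, this]
    rw [mul_comm]

/-- `θ₀` is a nonzero tangent field of minimal degree -/
structure IsMin (A : Finset ι) (m k : ι → K)
    (θ₀ : MvPolynomial (Fin 2) K × MvPolynomial (Fin 2) K) : Prop where
  ne_zero : θ₀ ≠ 0
  tan_eq : ∀ s ∈ A, tan (m s) (k s) θ₀ = 0
  min : ∀ θ : MvPolynomial (Fin 2) K × MvPolynomial (Fin 2) K, θ ≠ 0 →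
    (∀ s ∈ A, tan (m s) (k s) θ = 0) → mdeg θ₀ ≤ mdeg θ

lemma mem_VF' {A : Finset ι} {m k : ι → K} {D : ℕ}
    {θ : MvPolynomial (Fin 2) K × MvPolynomial (Fin 2) K} :
    θ ∈ VF A m k D ↔ mdeg θ ≤ D ∧ ∀ s ∈ A, tan (m s) (k s) θ = 0 := by
  rw [mem_VF, mdeg, max_le_iff]

/-- If there is a nonzero tangent field of degree `≤ D`, there is a minimal one of degree `≤ D`. -/
lemma exists_isMin {A : Finset ι} {m k : ι → K} {D : ℕ}
    (h : 0 < Module.finrank K (VF A m k D)) : ∃ θ₀, IsMin A m k θ₀ ∧ mdeg θ₀ ≤ D := by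
  classical
  have hne : VF A m k D ≠ ⊥ := by
    intro h0
    rw [h0] at h
    simp at h
  obtain ⟨θ, hθ, hθ0⟩ := (Submodule.ne_bot_iff _).mp hne
  obtain ⟨hd, ht⟩ := mem_VF'.mp hθ
  let S : Set ℕ := {d | ∃ θ : MvPolynomial (Fin 2) K × MvPolynomial (Fin 2) K, θ ≠ 0 ∧
    (∀ s ∈ A, tan (m s) (k s) θ = 0) ∧ mdeg θ = d}
  have hS : ∃ d, d ∈ S := ⟨mdeg θ, θ, hθ0, ht, rfl⟩
  obtain ⟨θ₀, h1, h2, h3⟩ := Nat.find_spec hS
  refine ⟨θ₀, ⟨h1, h2, ?_⟩, ?_⟩
  · intro θ' h0 h'
    rw [h3]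
    exact Nat.find_min' hS ⟨θ', h0, h', rfl⟩
  · rw [h3]
    exact (Nat.find_min' hS ⟨θ, hθ0, ht, rfl⟩).trans hd

/-- tangent fields parallel to a minimal one are polynomial multiples of it -/
lemma parallel_min {A : Finset ι} {m k : ι → K}
    {θ₀ θ : MvPolynomial (Fin 2) K × MvPolynomial (Fin 2) K} (h0 : IsMin A m k θ₀)
    (ht : ∀ s ∈ A, tan (m s) (k s) θ = 0) (hp : θ₀.1 * θ.2 = θ₀.2 * θ.1) :
    ∃ h, θ = pmul h θ₀ := by
  obtain ⟨c, φ, hc, hφ, rfl⟩ := exists_primitive h0.ne_zero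
  have hp' : φ.1 * θ.2 = φ.2 * θ.1 := by
    apply mul_left_cancel₀ hc
    simp only [pmul] at hp
    linear_combination hp
  obtain ⟨e, rfl⟩ := parallel_primitive hφ hp'
  obtain ⟨c', e', d, hce, rfl, rfl⟩ := UniqueFactorizationMonoid.exists_reduced_factors c hc e
  have hd : d ≠ 0 := left_ne_zero_of_mul hc
  have hc' : c' ≠ 0 := right_ne_zero_of_mul hc
  have hφ0 := ne_zero_of_isRelPrime hφ
  have key : ∀ s ∈ A, tan (m s) (k s) (pmul d φ) = 0 := by
    intro s hs
    by_contra hne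
    have hprime := lin_prime (m s) (k s)
    have h1 := h0.tan_eq s hs
    have h2 := ht s hs
    rw [tan_pmul, map_mul] at h1 h2
    rw [tan_pmul] at hne
    have h3 : ev (m s) (k s) c' = 0 := by
      have : ev (m s) (k s) c' * (ev (m s) (k s) d * tan (m s) (k s) φ) = 0 := by
        linear_combination h1
      exact (mul_eq_zero.mp this).resolve_right hne
    have h4 : ev (m s) (k s) e' = 0 := by
      have : ev (m s) (k s) e' * (ev (m s) (k s) d * tan (m s) (k s) φ) = 0 := by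
        linear_combination h2
      exact (mul_eq_zero.mp this).resolve_right hne
    exact hprime.not_isUnit (hce ((lin_dvd_iff _ _ _).mpr h3) ((lin_dvd_iff _ _ _).mpr h4))
  have hmin := h0.min _ (pmul_ne_zero hd hφ0) key
  have hassoc : pmul (d * c') φ = pmul c' (pmul d φ) := by
    simp only [pmul]
    exact Prod.ext (by ring) (by ring)
  rw [hassoc, mdeg_pmul hc' (pmul_ne_zero hd hφ0)] at hmin
  have hdeg : c'.totalDegree = 0 := by omega
  rw [totalDegree_eq_zero_iff_eq_C] at hdeg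
  set a := coeff 0 c' with ha
  have ha0 : a ≠ 0 := by
    intro h
    rw [h] at hdeg
    simp only [map_zero] at hdeg
    exact hc' hdeg
  refine ⟨C a⁻¹ * e', ?_⟩
  rw [hdeg]
  have hCC : (C a⁻¹ : MvPolynomial (Fin 2) K) * C a = 1 := by
    rw [← C_mul, inv_mul_cancel₀ ha0, C_1]
  simp only [pmul]
  refine Prod.ext ?_ ?_
  · linear_combination (-(d * e' * φ.1)) * hCC
  · linear_combination (-(d * e' * φ.2)) * hCC

/-- the determinant with a fixed vector field -/
noncomputable def detMap (θ₀ : MvPolynomial (Fin 2) K × MvPolynomial (Fin 2) K) :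
    (MvPolynomial (Fin 2) K × MvPolynomial (Fin 2) K) →ₗ[K] MvPolynomial (Fin 2) K :=
  (LinearMap.mulLeft K θ₀.1) ∘ₗ (LinearMap.snd K _ _) -
    (LinearMap.mulLeft K θ₀.2) ∘ₗ (LinearMap.fst K _ _)

lemma detMap_apply (θ₀ θ : MvPolynomial (Fin 2) K × MvPolynomial (Fin 2) K) :
    detMap θ₀ θ = θ₀.1 * θ.2 - θ₀.2 * θ.1 := by
  simp [detMap]

/-- multiplication of a fixed vector field by polynomials, as a linear map -/
noncomputable def pmulLin (θ₀ : MvPolynomial (Fin 2) K × MvPolynomial (Fin 2) K) :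
    MvPolynomial (Fin 2) K →ₗ[K] (MvPolynomial (Fin 2) K × MvPolynomial (Fin 2) K) :=
  (LinearMap.mulRight K θ₀.1).prod (LinearMap.mulRight K θ₀.2)

lemma pmulLin_apply (θ₀ : MvPolynomial (Fin 2) K × MvPolynomial (Fin 2) K)
    (h : MvPolynomial (Fin 2) K) : pmulLin θ₀ h = pmul h θ₀ := by
  simp [pmulLin, pmul]

lemma totalDegree_detMap_le (θ₀ θ : MvPolynomial (Fin 2) K × MvPolynomial (Fin 2) K) :
    (detMap θ₀ θ).totalDegree ≤ mdeg θ₀ + mdeg θ := by
  rw [detMap_apply]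
  refine (totalDegree_sub _ _).trans (max_le ?_ ?_)
  · refine (totalDegree_mul _ _).trans ?_
    exact Nat.add_le_add (le_max_left _ _) (le_max_right _ _)
  · refine (totalDegree_mul _ _).trans ?_
    exact Nat.add_le_add (le_max_right _ _) (le_max_left _ _)

lemma prod_lin_dvd_detMap {A : Finset ι} {m k : ι → K}
    (hinj : ∀ s ∈ A, ∀ t ∈ A, s ≠ t → m s ≠ m t ∨ k s ≠ k t)
    {θ₀ θ : MvPolynomial (Fin 2) K × MvPolynomial (Fin 2) K}
    (h0 : ∀ s ∈ A, tan (m s) (k s) θ₀ = 0) (h1 : ∀ s ∈ A, tan (m s) (k s) θ = 0) :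
    ∏ s ∈ A, lin (m s) (k s) ∣ detMap θ₀ θ := by
  apply prod_lin_dvd A m k hinj
  intro s hs
  have h2 := h0 s hs
  have h3 := h1 s hs
  rw [tan_apply'] at h2 h3
  rw [detMap_apply]
  simp only [map_sub, map_mul]
  linear_combination (ev (m s) (k s) θ₀.1) * h3 - (ev (m s) (k s) θ.1) * h2

theorem finrank_VF_upper {A : Finset ι} {m k : ι → K}
    (hinj : ∀ s ∈ A, ∀ t ∈ A, s ≠ t → m s ≠ m t ∨ k s ≠ k t)
    {θ₀ : MvPolynomial (Fin 2) K × MvPolynomial (Fin 2) K} (h0 : IsMin A m k θ₀)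
    {D : ℕ} (hD1 : mdeg θ₀ ≤ D) (hD2 : A.card ≤ D + mdeg θ₀) :
    2 * Module.finrank K (VF A m k D) ≤
      (D - mdeg θ₀ + 1) * (D - mdeg θ₀ + 2) +
        (D + mdeg θ₀ - A.card + 1) * (D + mdeg θ₀ - A.card + 2) := by
  have h1 := LinearMap.finrank_range_add_finrank_ker ((detMap θ₀).domRestrict (VF A m k D))
  have h2 : Module.finrank K (LinearMap.ker ((detMap θ₀).domRestrict (VF A m k D))) ≤
      Module.finrank K (restrictTotalDegree (Fin 2) K (D - mdeg θ₀)) := by
    rw [← Submodule.finrank_map_subtype_eq]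
    refine le_trans ?_ (Submodule.finrank_map_le (pmulLin θ₀) _)
    apply Submodule.finrank_mono
    rintro θ ⟨⟨θ', hθ'⟩, hk, rfl⟩
    rw [SetLike.mem_coe, LinearMap.mem_ker, LinearMap.domRestrict_apply, detMap_apply,
      sub_eq_zero] at hk
    obtain ⟨hd, ht⟩ := mem_VF'.mp hθ'
    obtain ⟨h, hh⟩ := parallel_min h0 ht hk
    refine ⟨h, ?_, ?_⟩
    · rw [SetLike.mem_coe, mem_restrictTotalDegree]
      by_cases hh0 : h = 0
      · rw [hh0]
        simp
      · rw [hh, mdeg_pmul hh0 h0.ne_zero] at hd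
        omega
    · rw [pmulLin_apply]
      exact hh.symm
  have h3 : Module.finrank K (LinearMap.range ((detMap θ₀).domRestrict (VF A m k D))) ≤
      Module.finrank K (restrictTotalDegree (Fin 2) K (D + mdeg θ₀ - A.card)) := by
    refine le_trans ?_ (Submodule.finrank_map_le
      (LinearMap.mulLeft K (∏ s ∈ A, lin (m s) (k s))) _)
    apply Submodule.finrank_mono
    rintro u ⟨⟨θ, hθ⟩, rfl⟩
    obtain ⟨hd, ht⟩ := mem_VF'.mp hθ
    obtain ⟨q, hq⟩ := prod_lin_dvd_detMap hinj h0.tan_eq ht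
    have hdeg := totalDegree_detMap_le θ₀ θ
    refine ⟨q, ?_, ?_⟩
    · rw [SetLike.mem_coe, mem_restrictTotalDegree]
      by_cases hq0 : q = 0
      · rw [hq0]
        simp
      · rw [hq, totalDegree_mul_of_isDomain (prod_lin_ne_zero _ _ _) hq0,
          totalDegree_prod_lin] at hdeg
        omega
    · rw [LinearMap.mulLeft_apply, LinearMap.domRestrict_apply]
      exact hq.symm
  have h4 := finrank_restrict (K := K) (D - mdeg θ₀)
  have h5 := finrank_restrict (K := K) (D + mdeg θ₀ - A.card)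
  omega

end Pool.Agent.Helper61_Gamma
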