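import Mathlib
import Pool.Agent.Helper61_Gamma.Upper

/-!
Second order information: the extactic polynomial of a tangent vector field.
-/

open MvPolynomial

namespace Pool.Agent.Helper61_Gamma

variable {K : Type*} [Field K] {ι : Type*}

lemma totalDegree_pderiv_lt {i : Fin 2} {f : MvPolynomial (Fin 2) K} (h : pderiv i f ≠ 0) :
    (pderiv i f).totalDegree + 1 ≤ f.totalDegree := by
  have h1 : ∀ m ∈ (pderiv i f).support, (m.sum fun _ e => e) + 1 ≤ f.totalDegree := by
    intro m hm
    rw [mem_support_iff, coeff_pderiv] at hm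
    have h2 : coeff (m + Finsupp.single i 1) f ≠ 0 := left_ne_zero_of_mul hm
    have h3 := le_totalDegree (mem_support_iff.mpr h2)
    rw [Finsupp.sum_add_index' (fun _ => rfl) (fun _ _ _ => rfl),
      Finsupp.sum_single_index rfl] at h3
    exact h3
  obtain ⟨m, hm⟩ := Finset.nonempty_iff_ne_empty.mpr (fun h0 => h (support_eq_empty.mp h0))
  have h2 : (pderiv i f).totalDegree ≤ f.totalDegree - 1 := by
    rw [totalDegree]
    apply Finset.sup_le
    intro m hm
    have := h1 m hm
    omega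
  have := h1 m hm
  omega

/-- derivative along a vector field -/
noncomputable def der (θ : MvPolynomial (Fin 2) K × MvPolynomial (Fin 2) K)
    (u : MvPolynomial (Fin 2) K) : MvPolynomial (Fin 2) K :=
  θ.1 * pderiv 0 u + θ.2 * pderiv 1 u

lemma derivative_ev (m k : K) (F : MvPolynomial (Fin 2) K) :
    Polynomial.derivative (ev m k F) =
      ev m k (pderiv 0 F) + Polynomial.C m * ev m k (pderiv 1 F) := by
  induction F using MvPolynomial.induction_on with
  | C a => simp
  | add p q hp hq =>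
    simp only [map_add, hp, hq]
    ring
  | mul_X p i hp =>
    fin_cases i
    · simp only [map_mul, Polynomial.derivative_mul, hp, pderiv_mul, map_add]
      simp
      ring
    · simp only [map_mul, Polynomial.derivative_mul, hp, pderiv_mul, map_add]
      simp
      ring

/-- the extactic polynomial -/
noncomputable def wron (θ : MvPolynomial (Fin 2) K × MvPolynomial (Fin 2) K) :
    MvPolynomial (Fin 2) K := θ.1 * der θ θ.2 - θ.2 * der θ θ.1

lemma ev_wron_eq_zero {m k : K} {θ : MvPolynomial (Fin 2) K × MvPolynomial (Fin 2) K}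
    (h : tan m k θ = 0) : ev m k (wron θ) = 0 := by
  have h1 := h
  rw [tan_eq_zero_iff] at h1
  obtain ⟨q, hq⟩ := h1
  have hlin0 : pderiv 0 (lin m k) = - C m := by
    simp [lin]
  have hlin1 : pderiv 1 (lin m k) = 1 := by
    simp [lin]
  have h2 : ev m k (der θ (θ.2 - C m * θ.1)) = 0 := by
    rw [hq, der, pderiv_mul, pderiv_mul, hlin0, hlin1]
    rw [tan_apply'] at h
    simp only [map_add, map_mul, map_neg, ev_C, ev_lin_self, zero_mul, map_one]
    linear_combination (ev m k q) * h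
  have h3 : der θ (θ.2 - C m * θ.1) = der θ θ.2 - C m * der θ θ.1 := by
    simp only [der, map_sub, pderiv_C_mul]
    ring
  rw [h3] at h2
  rw [tan_apply'] at h
  simp only [map_sub, map_mul, ev_C] at h2
  simp only [wron, map_sub, map_mul]
  linear_combination (ev m k θ.1) * h2 - (ev m k (der θ θ.1)) * h

lemma totalDegree_der_le (θ : MvPolynomial (Fin 2) K × MvPolynomial (Fin 2) K)
    (u : MvPolynomial (Fin 2) K) (h : der θ u ≠ 0) :
    (der θ u).totalDegree + 1 ≤ mdeg θ + u.totalDegree := by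
  have key : ∀ i : Fin 2, ∀ v : MvPolynomial (Fin 2) K, v.totalDegree ≤ mdeg θ →
      v * pderiv i u ≠ 0 → (v * pderiv i u).totalDegree + 1 ≤ mdeg θ + u.totalDegree := by
    intro i v hv hne
    have h1 := totalDegree_pderiv_lt (right_ne_zero_of_mul hne)
    have h2 := totalDegree_mul v (pderiv i u)
    omega
  by_cases h0 : θ.1 * pderiv 0 u = 0
  · have h1 : der θ u = θ.2 * pderiv 1 u := by rw [der, h0, zero_add]
    rw [h1] at h ⊢
    exact key 1 _ (le_max_right _ _) h
  · by_cases h1 : θ.2 * pderiv 1 u = 0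
    · have h2 : der θ u = θ.1 * pderiv 0 u := by rw [der, h1, add_zero]
      rw [h2]
      exact key 0 _ (le_max_left _ _) h0
    · have h2 := key 0 _ (le_max_left _ _) h0
      have h3 := key 1 _ (le_max_right _ _) h1
      have h4 := totalDegree_add (θ.1 * pderiv 0 u) (θ.2 * pderiv 1 u)
      rw [← der] at h4
      omega

lemma wron_eq_zero {B : Finset ι} {m k : ι → K}
    (hinj : ∀ s ∈ B, ∀ t ∈ B, s ≠ t → m s ≠ m t ∨ k s ≠ k t)
    {θ : MvPolynomial (Fin 2) K × MvPolynomial (Fin 2) K}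
    (ht : ∀ s ∈ B, tan (m s) (k s) θ = 0) (hcard : 3 * mdeg θ ≤ B.card) : wron θ = 0 := by
  by_contra hW
  have hdvd : ∏ s ∈ B, lin (m s) (k s) ∣ wron θ :=
    prod_lin_dvd B m k hinj _ fun s hs => ev_wron_eq_zero (ht s hs)
  obtain ⟨q, hq⟩ := hdvd
  have hq0 : q ≠ 0 := by
    rintro rfl
    apply hW
    rw [hq, mul_zero]
  have h1 : (wron θ).totalDegree = B.card + q.totalDegree := by
    rw [hq, totalDegree_mul_of_isDomain (prod_lin_ne_zero _ _ _) hq0, totalDegree_prod_lin]
  have key : ∀ v u : MvPolynomial (Fin 2) K, v.totalDegree ≤ mdeg θ → u.totalDegree ≤ mdeg θ →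
      v * der θ u ≠ 0 → (v * der θ u).totalDegree + 1 ≤ 3 * mdeg θ := by
    intro v u hv hu hne
    have h2 := totalDegree_der_le θ u (right_ne_zero_of_mul hne)
    have h3 := totalDegree_mul v (der θ u)
    omega
  by_cases h0 : θ.1 * der θ θ.2 = 0
  · have h2 : wron θ = - (θ.2 * der θ θ.1) := by rw [wron, h0, zero_sub]
    have hne : θ.2 * der θ θ.1 ≠ 0 := by
      intro h3
      apply hW
      rw [h2, h3, neg_zero]
    have h3 := key θ.2 θ.1 (le_max_right _ _) (le_max_left _ _) hne
    rw [h2, totalDegree_neg] at h1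
    omega
  · by_cases h2 : θ.2 * der θ θ.1 = 0
    · have h3 : wron θ = θ.1 * der θ θ.2 := by rw [wron, h2, sub_zero]
      have h4 := key θ.1 θ.2 (le_max_left _ _) (le_max_right _ _) h0
      rw [h3] at h1
      omega
    · have h3 := key θ.1 θ.2 (le_max_left _ _) (le_max_right _ _) h0
      have h4 := key θ.2 θ.1 (le_max_right _ _) (le_max_left _ _) h2
      have h5 := totalDegree_sub (θ.1 * der θ θ.2) (θ.2 * der θ θ.1)
      rw [← wron] at h5
      omega

lemma pderiv_eq_zero_of_dvd {i : Fin 2} {f : MvPolynomial (Fin 2) K} (h : f ∣ pderiv i f) :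
    pderiv i f = 0 := by
  by_contra hne
  obtain ⟨q, hq⟩ := h
  have h1 := totalDegree_pderiv_lt hne
  have hf : f ≠ 0 := by
    rintro rfl
    simp at hne
  have hq0 : q ≠ 0 := by
    rintro rfl
    apply hne
    rw [hq, mul_zero]
  rw [hq, totalDegree_mul_of_isDomain hf hq0] at h1
  omega

lemma pderiv_eq_zero_of_isUnit {i : Fin 2} {f : MvPolynomial (Fin 2) K} (h : IsUnit f) :
    pderiv i f = 0 :=
  pderiv_eq_zero_of_dvd h.dvd

lemma pderiv_of_wron {θ : MvPolynomial (Fin 2) K × MvPolynomial (Fin 2) K}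
    (hrel : IsRelPrime θ.1 θ.2) (hW : wron θ = 0) :
    pderiv 1 θ.1 = 0 ∧ pderiv 0 θ.2 = 0 ∧ pderiv 0 θ.1 = pderiv 1 θ.2 := by
  obtain ⟨f, g⟩ := θ
  simp only at hrel
  simp only
  by_cases hf : f = 0
  · subst hf
    have hu : IsUnit g := hrel (dvd_zero _) (dvd_refl _)
    simp [pderiv_eq_zero_of_isUnit hu]
  by_cases hg : g = 0
  · subst hg
    have hu : IsUnit f := hrel (dvd_refl _) (dvd_zero _)
    simp [pderiv_eq_zero_of_isUnit hu]
  rw [wron, sub_eq_zero] at hW
  simp only [der] at hW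
  have h1 : pderiv 1 f = 0 := by
    apply pderiv_eq_zero_of_dvd
    have h2 : f ∣ g * (f * pderiv 0 f + g * pderiv 1 f) := ⟨_, hW.symm⟩
    have h3 : f ∣ f * pderiv 0 f + g * pderiv 1 f := hrel.dvd_of_dvd_mul_left h2
    have h4 : f ∣ g * pderiv 1 f := (dvd_add_right (dvd_mul_right f _)).mp h3
    exact hrel.dvd_of_dvd_mul_left h4
  have h2 : pderiv 0 g = 0 := by
    apply pderiv_eq_zero_of_dvd
    have h2 : g ∣ f * (f * pderiv 0 g + g * pderiv 1 g) := ⟨_, hW⟩
    have h3 : g ∣ f * pderiv 0 g + g * pderiv 1 g := hrel.symm.dvd_of_dvd_mul_left h2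
    have h4 : g ∣ f * pderiv 0 g := (dvd_add_left (dvd_mul_right g _)).mp h3
    exact hrel.symm.dvd_of_dvd_mul_left h4
  refine ⟨h1, h2, ?_⟩
  rw [h1, h2] at hW
  have : f * g * pderiv 0 f = f * g * pderiv 1 g := by linear_combination -hW
  exact mul_left_cancel₀ (mul_ne_zero hf hg) this

end Pool.Agent.Helper61_Gamma
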