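import Mathlib
import Pool.Agent.Helper61_Gamma.Wron

/-!
The structure theorem for the arrangement of lines `y = m_s x + k_s`: for a minimal tangent field of
degree at most `q`, where `q ≠ 0` in `K` and there are at least `3 q` lines, most lines carry few
intersection points.
-/

open MvPolynomial

namespace Pool.Agent.Helper61_Gamma

variable {K : Type*} [Field K] {ι : Type*}

lemma ev_ne_zero_of_primitive {m k : K} {φ : MvPolynomial (Fin 2) K × MvPolynomial (Fin 2) K}
    (h : IsRelPrime φ.1 φ.2) (ht : tan m k φ = 0) : ev m k φ.1 ≠ 0 := by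
  intro h0
  have h1 : ev m k φ.2 = 0 := by
    rw [tan_apply', h0] at ht
    simpa using ht
  exact (lin_prime m k).not_isUnit
    (h ((lin_dvd_iff _ _ _).mpr h0) ((lin_dvd_iff _ _ _).mpr h1))

lemma eval_ev (m k x : K) (F : MvPolynomial (Fin 2) K) :
    Polynomial.eval x (ev m k F) = MvPolynomial.eval ![x, m * x + k] F := by
  induction F using MvPolynomial.induction_on with
  | C a => simp
  | add p q hp hq => simp [hp, hq]
  | mul_X p i hp =>
    fin_cases i
    · simp [hp]
    · simp [hp]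

lemma root_of_tangent {m k m' k' : K} {φ : MvPolynomial (Fin 2) K × MvPolynomial (Fin 2) K}
    (h : tan m k φ = 0) (h' : tan m' k' φ = 0) (hne : m' ≠ m) :
    Polynomial.eval (xco m k m' k') (ev m k φ.1) = 0 := by
  set x := xco m k m' k' with hx
  have hd : m - m' ≠ 0 := sub_ne_zero.mpr (Ne.symm hne)
  have hxy : m * x + k = m' * x + k' := by
    have : x * (m - m') = k' - k := by
      rw [hx, xco, div_mul_cancel₀ _ hd]
    linear_combination this
  rw [tan_apply'] at h h'
  have h1 := congrArg (Polynomial.eval x) h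
  have h2 := congrArg (Polynomial.eval x) h'
  simp only [Polynomial.eval_sub, Polynomial.eval_mul, Polynomial.eval_C, Polynomial.eval_zero,
    eval_ev] at h1 h2
  rw [← hxy] at h2
  rw [eval_ev]
  have h3 : (m - m') * MvPolynomial.eval ![x, m * x + k] φ.1 = 0 := by
    linear_combination h2 - h1
  exact (mul_eq_zero.mp h3).resolve_left hd

lemma kap_le_natDegree [DecidableEq K] {B : Finset ι} {m k : ι → K}
    {φ : MvPolynomial (Fin 2) K × MvPolynomial (Fin 2) K} (h : IsRelPrime φ.1 φ.2)
    (ht : ∀ s ∈ B, tan (m s) (k s) φ = 0) {m₀ k₀ : K} (h0 : tan m₀ k₀ φ = 0) :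
    kap B m k m₀ k₀ ≤ (ev m₀ k₀ φ.1).natDegree := by
  have hne := ev_ne_zero_of_primitive h h0
  refine le_trans (Finset.card_le_card (t := (ev m₀ k₀ φ.1).roots.toFinset) ?_)
    ((Multiset.toFinset_card_le _).trans (Polynomial.card_roots' _))
  intro x hx
  obtain ⟨t, ht', rfl⟩ := Finset.mem_image.mp hx
  obtain ⟨htB, htm⟩ := Finset.mem_filter.mp ht'
  rw [Multiset.mem_toFinset, Polynomial.mem_roots hne]
  exact root_of_tangent h0 (ht t htB) htm

/-- a parallel mate lowers the degree along the line, if the degree is nonzero in `K` -/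
lemma natDegree_of_mate {m k k' : K} (hk : k ≠ k')
    {φ : MvPolynomial (Fin 2) K × MvPolynomial (Fin 2) K}
    (h : tan m k φ = 0) (h' : tan m k' φ = 0)
    (hd1 : pderiv 1 φ.1 = 0) (hd2 : pderiv 0 φ.1 = pderiv 1 φ.2)
    (hr : ((mdeg φ : ℕ) : K) ≠ 0) : (ev m k φ.1).natDegree + 1 ≤ mdeg φ := by
  have hr0 : mdeg φ ≠ 0 := by
    intro h0
    rw [h0] at hr
    simp at hr
  set r := mdeg φ with hrdef
  have hle : (ev m k φ.1).natDegree ≤ r := (natDegree_ev_le m k φ.1).trans (le_max_left _ _)
  by_contra hcon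
  have heq : (ev m k φ.1).natDegree = r := by omega
  -- the derivative
  have hder : Polynomial.derivative (ev m k φ.1) = ev m k (pderiv 1 φ.2) := by
    rw [derivative_ev, hd1, hd2]
    simp
  -- factorization
  set G := φ.2 - C m * φ.1 with hG
  have hGdeg : G.totalDegree ≤ r := by
    refine (totalDegree_sub _ _).trans (max_le (le_max_right _ _) ?_)
    refine (totalDegree_mul _ _).trans ?_
    rw [totalDegree_C, zero_add]
    exact le_max_left _ _
  have hG1 : pderiv 1 G = pderiv 1 φ.2 := by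
    rw [hG, map_sub, pderiv_C_mul, hd1]
    simp
  have hev : ev m k (pderiv 1 φ.2) ≠ 0 := by
    intro h0
    have h1 := congrArg (fun p => Polynomial.coeff p (r - 1)) hder
    simp only [h0, Polynomial.coeff_zero, Polynomial.coeff_derivative] at h1
    have h2 : r - 1 + 1 = r := by omega
    rw [h2] at h1
    have h3 : (Polynomial.coeff (ev m k φ.1) r) ≠ 0 := by
      rw [← heq]
      have : ev m k φ.1 ≠ 0 := by
        intro h4
        rw [h4] at heq
        simp at heq
        omega
      simpa using this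
    have h4 : ((r - 1 : ℕ) : K) + 1 = (r : K) := by
      have h6 : ((r - 1 + 1 : ℕ) : K) = (r : K) := by rw [h2]
      rwa [Nat.cast_add, Nat.cast_one] at h6
    rw [h4] at h1
    exact (mul_ne_zero h3 hr) h1
  have hdvd : lin m k * lin m k' ∣ G := by
    apply (isRelPrime_lin (Or.inr hk)).mul_dvd
    · exact (tan_eq_zero_iff _ _ _).mp h
    · exact (tan_eq_zero_iff _ _ _).mp h'
  obtain ⟨p, hp⟩ := hdvd
  have hp0 : p ≠ 0 := by
    rintro rfl
    rw [mul_zero] at hp
    rw [hp, map_zero] at hG1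
    rw [← hG1] at hev
    simp at hev
  have hpdeg : p.totalDegree + 2 ≤ r := by
    have := hGdeg
    rw [hp, totalDegree_mul_of_isDomain (mul_ne_zero (lin_ne_zero _ _) (lin_ne_zero _ _)) hp0,
      totalDegree_mul_of_isDomain (lin_ne_zero _ _) (lin_ne_zero _ _), totalDegree_lin,
      totalDegree_lin] at this
    omega
  have hlin1 : ∀ c : K, pderiv 1 (lin m c) = 1 := by
    intro c
    simp [lin]
  have hevG : ev m k (pderiv 1 φ.2) = Polynomial.C (k - k') * ev m k p := by
    rw [← hG1, hp, pderiv_mul, pderiv_mul, hlin1, hlin1]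
    simp only [map_add, map_mul, ev_lin_self, map_one, ev_lin, sub_self, Polynomial.C_0]
    ring
  have h5 : (Polynomial.derivative (ev m k φ.1)).natDegree ≤ r - 2 := by
    rw [hder, hevG]
    refine (Polynomial.natDegree_C_mul_le _ _).trans ((natDegree_ev_le m k p).trans ?_)
    omega
  have h1 : Polynomial.coeff (Polynomial.derivative (ev m k φ.1)) (r - 1) = 0 := by
    apply Polynomial.coeff_eq_zero_of_natDegree_lt
    omega
  rw [Polynomial.coeff_derivative] at h1
  have h2 : r - 1 + 1 = r := by omega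
  have h4 : ((r - 1 : ℕ) : K) + 1 = (r : K) := by
    have h6 : ((r - 1 + 1 : ℕ) : K) = (r : K) := by rw [h2]
    rwa [Nat.cast_add, Nat.cast_one] at h6
  rw [h2, h4] at h1
  have h3 : (Polynomial.coeff (ev m k φ.1) r) ≠ 0 := by
    rw [← heq]
    have : ev m k φ.1 ≠ 0 := by
      intro h4
      rw [h4] at heq
      simp at heq
      omega
    simpa using this
  exact (mul_ne_zero h3 hr) h1

/-- **Structure theorem.** -/
theorem structure_thm [DecidableEq ι] [DecidableEq K] {A : Finset ι} {m k : ι → K}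
    (hinj : ∀ s ∈ A, ∀ t ∈ A, s ≠ t → m s ≠ m t ∨ k s ≠ k t)
    {θ₀ : MvPolynomial (Fin 2) K × MvPolynomial (Fin 2) K} (h0 : IsMin A m k θ₀)
    {q : ℕ} (hq : (q : K) ≠ 0) (hdeg : mdeg θ₀ ≤ q) (hcard : 3 * q ≤ A.card) :
    ∃ (T : Finset ι) (j : ℕ), T ⊆ A ∧ 1 ≤ j ∧ j ≤ q ∧ T.card ≤ j ∧
      ∀ s ∈ A \ T, kap ((A \ T).erase s) m k (m s) (k s) + j ≤ q + 1 ∧
        ((∃ t ∈ (A \ T).erase s, m t = m s) →
          kap ((A \ T).erase s) m k (m s) (k s) + 1 + j ≤ q + 1) := by
  classical
  have hq0 : q ≠ 0 := by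
    rintro rfl
    simp at hq
  obtain ⟨c, φ, hc, hφ, rfl⟩ := exists_primitive h0.ne_zero
  have hφ0 := ne_zero_of_isRelPrime hφ
  rw [mdeg_pmul hc hφ0] at hdeg
  set T := A.filter (fun s => tan (m s) (k s) φ ≠ 0) with hT
  have hTsub : T ⊆ A := Finset.filter_subset _ _
  have hTcard : T.card ≤ c.totalDegree := by
    have hdvd : ∏ s ∈ T, lin (m s) (k s) ∣ c := by
      apply prod_lin_dvd
      · intro s hs t ht hst
        exact hinj s (hTsub hs) t (hTsub ht) hst
      · intro s hs
        obtain ⟨hsA, hne⟩ := Finset.mem_filter.mp hs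
        have h1 := h0.tan_eq s hsA
        rw [tan_pmul] at h1
        exact (mul_eq_zero.mp h1).resolve_right hne
    obtain ⟨e, he⟩ := hdvd
    have he0 : e ≠ 0 := by
      rintro rfl
      rw [mul_zero] at he
      exact hc he
    rw [he, totalDegree_mul_of_isDomain (prod_lin_ne_zero _ _ _) he0, totalDegree_prod_lin]
    omega
  set B := A \ T with hB
  have hBcard : B.card + T.card = A.card := Finset.card_sdiff_add_card_eq_card hTsub
  have htanB : ∀ s ∈ B, tan (m s) (k s) φ = 0 := by
    intro s hs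
    obtain ⟨hsA, hsT⟩ := Finset.mem_sdiff.mp hs
    by_contra hne
    exact hsT (Finset.mem_filter.mpr ⟨hsA, hne⟩)
  have hinjB : ∀ s ∈ B, ∀ t ∈ B, s ≠ t → m s ≠ m t ∨ k s ≠ k t := fun s hs t ht hst =>
    hinj s (Finset.sdiff_subset hs) t (Finset.sdiff_subset ht) hst
  have hW : wron φ = 0 := wron_eq_zero hinjB htanB (by omega)
  obtain ⟨hd1, -, hd2⟩ := pderiv_of_wron hφ hW
  have hkap : ∀ s ∈ B, kap (B.erase s) m k (m s) (k s) ≤ (ev (m s) (k s) φ.1).natDegree :=
    fun s hs => kap_le_natDegree hφ (fun t ht => htanB t (Finset.mem_of_mem_erase ht)) (htanB s hs)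
  have hnat : ∀ s : ι, (ev (m s) (k s) φ.1).natDegree ≤ mdeg φ := fun s =>
    (natDegree_ev_le _ _ _).trans (le_max_left _ _)
  by_cases hr : mdeg φ = q
  · refine ⟨T, 1, hTsub, le_refl _, by omega, by omega, ?_⟩
    intro s hs
    have h1 : kap ((A \ T).erase s) m k (m s) (k s) ≤ _ := hkap s hs
    have h2 := hnat s
    refine ⟨by omega, ?_⟩
    rintro ⟨t, ht, hmt⟩
    obtain ⟨hts, htB⟩ := Finset.mem_erase.mp ht
    have hkne : k s ≠ k t := by
      rcases hinjB s hs t htB (Ne.symm hts) with h | h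
      · exact absurd hmt.symm h
      · exact h
    have h3 := htanB t htB
    rw [hmt] at h3
    have h4 := natDegree_of_mate hkne (htanB s hs) h3 hd1 hd2 (by rw [hr]; exact hq)
    omega
  · refine ⟨T, q - mdeg φ, hTsub, by omega, by omega, by omega, ?_⟩
    intro s hs
    have h1 : kap ((A \ T).erase s) m k (m s) (k s) ≤ _ := hkap s hs
    have h2 := hnat s
    refine ⟨by omega, ?_⟩
    intro _
    omega

end Pool.Agent.Helper61_Gamma
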