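import Mathlib

/-!
Counting in a finite projective plane.
-/

open Configuration Configuration.ProjectivePlane

namespace Pool.Agent.Helper61_Gamma

variable {P L : Type*} [Membership P L] [ProjectivePlane P L]

/-- the line through two points (arbitrary if they coincide) -/
noncomputable def ln (L : Type*) [Membership P L] [ProjectivePlane P L] (p q : P) : L :=
  open Classical in
  if h : p ≠ q then HasLines.mkLine h
  else (Classical.choose (Classical.choose_spec (Classical.choose_spec
    (Classical.choose_spec (@ProjectivePlane.exists_config P L _ _)))))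

lemma left_mem_ln {p q : P} (h : p ≠ q) : p ∈ ln L p q := by
  rw [ln, dif_pos h]
  exact (HasLines.mkLine_ax h).1

lemma right_mem_ln {p q : P} (h : p ≠ q) : q ∈ ln L p q := by
  rw [ln, dif_pos h]
  exact (HasLines.mkLine_ax h).2

lemma eq_ln {p q : P} (h : p ≠ q) {ℓ : L} (hp : p ∈ ℓ) (hq : q ∈ ℓ) : ℓ = ln L p q :=
  (Nondegenerate.eq_or_eq hp hq (left_mem_ln h) (right_mem_ln h)).resolve_left h

variable [Fintype L] [DecidableEq P] [DecidableEq L]

open Classical in
/-- number of points of `X` on the line `ℓ` -/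
noncomputable def rk (X : Finset P) (ℓ : L) : ℕ := (X.filter (fun p => p ∈ ℓ)).card

open Classical in
/-- the lines through a point -/
noncomputable def thr (L : Type*) [Membership P L] [Fintype L] (s : P) : Finset L :=
  Finset.univ.filter (fun ℓ : L => s ∈ ℓ)

omit [ProjectivePlane P L] [DecidableEq P] [DecidableEq L] in
lemma mem_thr {s : P} {ℓ : L} : ℓ ∈ thr L s ↔ s ∈ ℓ := by
  simp [thr]

omit [DecidableEq P] [DecidableEq L] in
lemma card_thr [Fintype P] (s : P) : (thr L s).card = order P L + 1 := by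
  classical
  rw [← lineCount_eq L s, lineCount, Nat.card_eq_fintype_card, Fintype.card_subtype, thr]

omit [DecidableEq P] in
lemma sum_rk_thr {X : Finset P} {s : P} (hs : s ∉ X) : ∑ ℓ ∈ thr L s, rk X ℓ = X.card := by
  classical
  rw [Finset.card_eq_sum_card_fiberwise (f := fun t => ln L s t) (t := thr L s)]
  · apply Finset.sum_congr rfl
    intro ℓ hℓ
    rw [rk]
    congr 1
    apply Finset.filter_congr
    intro t ht
    have hst : s ≠ t := by
      rintro rfl
      exact hs ht
    constructor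
    · intro h
      exact (eq_ln hst (mem_thr.mp hℓ) h).symm
    · intro h
      rw [← h]
      exact right_mem_ln hst
  · intro t ht
    have hst : s ≠ t := by
      rintro rfl
      exact hs ht
    exact mem_thr.mpr (left_mem_ln hst)

omit [DecidableEq L] in
lemma sum_rk [Fintype P] (X : Finset P) :
    ∑ ℓ : L, rk X ℓ = X.card * (order P L + 1) := by
  classical
  simp only [rk, Finset.card_filter]
  rw [Finset.sum_comm]
  rw [Finset.card_eq_sum_ones, Finset.sum_mul]
  apply Finset.sum_congr rfl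
  intro s _
  rw [one_mul, ← card_thr s, thr, Finset.card_filter]

omit [DecidableEq L] in
lemma sum_rk_sq [Fintype P] (X : Finset P) :
    ∑ ℓ : L, (rk X ℓ) ^ 2 = X.card * (X.card + order P L) := by
  classical
  have h1 : ∀ ℓ : L, (rk X ℓ) ^ 2 = ∑ s ∈ X, if s ∈ ℓ then rk X ℓ else 0 := by
    intro ℓ
    rw [← Finset.sum_filter, Finset.sum_const, smul_eq_mul, sq]
    rfl
  simp only [h1]
  rw [Finset.sum_comm]
  have h2 : ∀ s ∈ X, (∑ ℓ : L, if s ∈ ℓ then rk X ℓ else 0) = X.card + order P L := by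
    intro s hs
    rw [← Finset.sum_filter]
    have h3 : ∀ ℓ ∈ thr L s, rk X ℓ = rk (X.erase s) ℓ + 1 := by
      intro ℓ hℓ
      rw [rk, rk, Finset.filter_erase, Finset.card_erase_of_mem]
      · have : 0 < (X.filter (fun p => p ∈ ℓ)).card :=
          Finset.card_pos.mpr ⟨s, Finset.mem_filter.mpr ⟨hs, mem_thr.mp hℓ⟩⟩
        omega
      · exact Finset.mem_filter.mpr ⟨hs, mem_thr.mp hℓ⟩
    change ∑ ℓ ∈ thr L s, rk X ℓ = _
    rw [Finset.sum_congr rfl h3, Finset.sum_add_distrib, sum_rk_thr (Finset.notMem_erase s X),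
      Finset.card_erase_of_mem hs, ← Finset.card_eq_sum_ones, card_thr]
    have : 0 < X.card := Finset.card_pos.mpr ⟨s, hs⟩
    omega
  rw [Finset.sum_congr rfl h2, Finset.sum_const, smul_eq_mul]

open Classical in
/-- number of lines meeting `X` in exactly `i` points -/
noncomputable def tcount (L : Type*) [Membership P L] [Fintype L] (X : Finset P) (i : ℕ) : ℕ :=
  (Finset.univ.filter (fun ℓ : L => rk X ℓ = i)).card

/-- the quadratic counting identity -/
lemma sum_phi [Fintype P] (X : Finset P) (c : ℤ) :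
    ∑ ℓ : L, ((rk X ℓ : ℤ) - c) * ((rk X ℓ : ℤ) - c - 1) =
      (X.card : ℤ) * (X.card + order P L) - (2 * c + 1) * (X.card * (order P L + 1)) +
        c * (c + 1) * ((order P L) ^ 2 + order P L + 1) := by
  have h1 : ∀ ℓ : L, ((rk X ℓ : ℤ) - c) * ((rk X ℓ : ℤ) - c - 1) =
      ((rk X ℓ : ℤ)) ^ 2 - (2 * c + 1) * (rk X ℓ : ℤ) + c * (c + 1) := by
    intro ℓ
    ring
  simp only [h1]
  rw [Finset.sum_add_distrib, Finset.sum_sub_distrib, ← Finset.mul_sum]
  have h2 := congrArg (Nat.cast (R := ℤ)) (sum_rk_sq (L := L) X)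
  have h3 := congrArg (Nat.cast (R := ℤ)) (sum_rk (L := L) X)
  push_cast at h2 h3
  rw [h2, h3, Finset.sum_const, Finset.card_univ, card_lines (P := P) (L := L)]
  simp only [nsmul_eq_mul]
  push_cast
  ring

lemma phi_nonneg (r : ℕ) (c : ℤ) : 0 ≤ ((r : ℤ) - c) * ((r : ℤ) - c - 1) := by
  rcases le_or_gt ((r : ℤ)) c with h | h
  · nlinarith
  · nlinarith

/-- lines with `i` points are few -/
lemma tcount_le [Fintype P] (X : Finset P) (c : ℤ) (i : ℕ) :
    ((i : ℤ) - c) * ((i : ℤ) - c - 1) * (tcount L X i : ℤ) ≤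
      (X.card : ℤ) * (X.card + order P L) - (2 * c + 1) * (X.card * (order P L + 1)) +
        c * (c + 1) * ((order P L) ^ 2 + order P L + 1) := by
  classical
  rw [← sum_phi (L := L)]
  have h1 : ((i : ℤ) - c) * ((i : ℤ) - c - 1) * (tcount L X i : ℤ) =
      ∑ ℓ ∈ Finset.univ.filter (fun ℓ : L => rk X ℓ = i),
        ((rk X ℓ : ℤ) - c) * ((rk X ℓ : ℤ) - c - 1) := by
    rw [Finset.sum_congr rfl (g := fun _ => ((i : ℤ) - c) * ((i : ℤ) - c - 1))]
    · rw [Finset.sum_const, tcount]
      simp only [nsmul_eq_mul]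
      ring
    · intro ℓ hℓ
      rw [(Finset.mem_filter.mp hℓ).2]
  rw [h1]
  exact Finset.sum_le_sum_of_subset_of_nonneg (Finset.filter_subset _ _)
    fun ℓ _ _ => phi_nonneg _ _

/-- if every point of `X` is on at least `j` tangents, there are at least `j |X|` tangents -/
lemma tcount_one_ge (X : Finset P) (j : ℕ)
    (h : ∀ s ∈ X, j ≤ ((thr L s).filter (fun ℓ => rk X ℓ = 1)).card) :
    j * X.card ≤ tcount L X 1 := by
  classical
  have h1 : ∑ s ∈ X, ((thr L s).filter (fun ℓ => rk X ℓ = 1)).card = tcount L X 1 := by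
    have h2 : ∀ s ∈ X, ((thr L s).filter (fun ℓ => rk X ℓ = 1)).card =
        ∑ ℓ ∈ Finset.univ.filter (fun ℓ : L => rk X ℓ = 1), if s ∈ ℓ then 1 else 0 := by
      intro s _
      rw [← Finset.card_filter, Finset.filter_filter]
      congr 1
      ext ℓ
      simp [mem_thr, and_comm]
    rw [Finset.sum_congr rfl h2, Finset.sum_comm, tcount, Finset.card_eq_sum_ones]
    apply Finset.sum_congr rfl
    intro ℓ hℓ
    rw [← Finset.card_filter]
    have := (Finset.mem_filter.mp hℓ).2
    rw [rk] at this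
    convert this
  rw [← h1]
  calc j * X.card = ∑ s ∈ X, j := by rw [Finset.sum_const, smul_eq_mul, mul_comm]
    _ ≤ _ := Finset.sum_le_sum h

end Pool.Agent.Helper61_Gamma
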