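import Mathlib
import Pool.Agent.Helper61_Gamma.Main
import Pool.Agent.Helper61_Gamma.Plane

/-!
Point sets in a finite projective plane which have a coordinatisation over another field.
-/

open Configuration Configuration.ProjectivePlane

namespace Pool.Agent.Helper61_Gamma

variable {P L : Type*} [Membership P L] [ProjectivePlane P L]
variable {K : Type*} [Field K]

/-- Affine dual coordinates of the points of `S ∖ {ω}` over `K`, where `ω` is at infinity. -/
structure Coord (L : Type*) [Membership P L] [ProjectivePlane P L] [DecidableEq P]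
    (S : Finset P) (ω : P) (m k : P → K) : Prop where
  mem : ω ∈ S
  inj : ∀ s ∈ S.erase ω, ∀ t ∈ S.erase ω, s ≠ t → m s ≠ m t ∨ k s ≠ k t
  om : ∀ s ∈ S.erase ω, ∀ t ∈ S.erase ω, s ≠ t → (ω ∈ ln L s t ↔ m s = m t)
  col : ∀ s ∈ S.erase ω, ∀ t ∈ S.erase ω, ∀ u ∈ S.erase ω, s ≠ t → s ≠ u → t ≠ u →
    (u ∈ ln L s t ↔ (m t - m s) * (k u - k s) = (m u - m s) * (k t - k s))

variable [DecidableEq P]

omit [DecidableEq P] in
lemma ln_eq_of_mem {s t u : P} (h : s ≠ t) (h' : s ≠ u) (hu : u ∈ ln L s t) :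
    ln L s t = ln L s u := eq_ln h' (left_mem_ln h) hu

section
variable {S : Finset P} {ω : P} {m k : P → K}

/-- the common point determines and is determined by the line -/
lemma Coord.xco_iff (hC : Coord L S ω m k) {s t u : P} (hs : s ∈ S.erase ω) (ht : t ∈ S.erase ω)
    (hu : u ∈ S.erase ω) (hst : s ≠ t) (hsu : s ≠ u) (hmt : m t ≠ m s) (hmu : m u ≠ m s) :
    xco (m s) (k s) (m t) (k t) = xco (m s) (k s) (m u) (k u) ↔ ln L s t = ln L s u := by
  have h1 : m s - m t ≠ 0 := sub_ne_zero.mpr (Ne.symm hmt)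
  have h2 : m s - m u ≠ 0 := sub_ne_zero.mpr (Ne.symm hmu)
  by_cases htu : t = u
  · subst htu
    simp
  · have h3 := hC.col s hs t ht u hu hst hsu htu
    rw [xco, xco, div_eq_div_iff h1 h2]
    constructor
    · intro h
      exact ln_eq_of_mem hst hsu (h3.mpr (by linear_combination h))
    · intro h
      have h4 : u ∈ ln L s t := by
        rw [h]
        exact right_mem_ln hsu
      linear_combination h3.mp h4

variable [Fintype L] [DecidableEq L] [DecidableEq K]

/-- lines through `s` meeting `X` -/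
noncomputable def meets (L : Type*) [Membership P L] [Fintype L] (X : Finset P) (s : P) :
    Finset L := by
  classical exact (thr L s).filter (fun ℓ => 1 ≤ rk X ℓ)

omit [DecidableEq L] [ProjectivePlane P L] [DecidableEq P] in
lemma mem_meets {X : Finset P} {s : P} {ℓ : L} :
    ℓ ∈ meets L X s ↔ s ∈ ℓ ∧ ∃ t ∈ X, t ∈ ℓ := by
  classical
  rw [meets, Finset.mem_filter, mem_thr, rk, Nat.one_le_iff_ne_zero, Finset.card_ne_zero,
    Finset.Nonempty]
  simp only [Finset.mem_filter]

omit [DecidableEq L] in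
/-- step (a) -/
lemma Coord.kap_lt_meets (hC : Coord L S ω m k) {A' : Finset P} (hA' : A' ⊆ S.erase ω) {s : P}
    (hs : s ∈ S.erase ω) (hsA : s ∉ A') :
    kap A' m k (m s) (k s) + 1 ≤ (meets L (insert ω A') s).card := by
  classical
  have hsω : s ≠ ω := (Finset.mem_erase.mp hs).1
  set I := (A'.filter (fun t => m t ≠ m s)).image (fun t => ln L s t) with hI
  have hne : ∀ t ∈ A', s ≠ t := by
    rintro t ht rfl
    exact hsA ht
  have h1 : kap A' m k (m s) (k s) ≤ I.card := by
    rw [kap]
    have : ((A'.filter (fun t => m t ≠ m s)).image (fun t => xco (m s) (k s) (m t) (k t))).card ≤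
        I.card := by
      apply Finset.card_le_card_of_surjOn
        (fun ℓ => if h : ∃ t ∈ A'.filter (fun t => m t ≠ m s), ln L s t = ℓ then
          xco (m s) (k s) (m h.choose) (k h.choose) else 0)
      intro x hx
      rw [Finset.mem_coe, Finset.mem_image] at hx
      obtain ⟨t, ht, rfl⟩ := hx
      refine ⟨ln L s t, ?_, ?_⟩
      · rw [Finset.mem_coe, hI, Finset.mem_image]
        exact ⟨t, ht, rfl⟩
      · have h : ∃ t' ∈ A'.filter (fun t => m t ≠ m s), ln L s t' = ln L s t := ⟨t, ht, rfl⟩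
        simp only [dif_pos h]
        obtain ⟨h2, h3⟩ := h.choose_spec
        obtain ⟨h4, h5⟩ := Finset.mem_filter.mp h2
        obtain ⟨h6, h7⟩ := Finset.mem_filter.mp ht
        exact (hC.xco_iff hs (hA' h4) (hA' h6) (hne _ h4) (hne _ h6) h5 h7).mpr h3
    exact this
  have h2 : ln L s ω ∉ I := by
    rw [hI, Finset.mem_image]
    rintro ⟨t, ht, h3⟩
    obtain ⟨h4, h5⟩ := Finset.mem_filter.mp ht
    apply h5
    have h6 : ω ∈ ln L s t := by
      rw [h3]
      exact right_mem_ln hsω
    exact ((hC.om s hs t (hA' h4) (hne t h4)).mp h6).symm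
  have h3 : insert (ln L s ω) I ⊆ meets L (insert ω A') s := by
    intro ℓ hℓ
    rw [mem_meets]
    rcases Finset.mem_insert.mp hℓ with rfl | h
    · exact ⟨left_mem_ln hsω, ω, Finset.mem_insert_self _ _, right_mem_ln hsω⟩
    · obtain ⟨t, ht, rfl⟩ := Finset.mem_image.mp h
      have h4 := (Finset.mem_filter.mp ht).1
      exact ⟨left_mem_ln (hne t h4), t, Finset.mem_insert_of_mem h4, right_mem_ln (hne t h4)⟩
  have h4 := Finset.card_le_card h3
  rw [Finset.card_insert_of_notMem h2] at h4
  omega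

omit [DecidableEq L] in
/-- step (b) -/
lemma Coord.meets_le (hC : Coord L S ω m k) {B : Finset P} (hB : B ⊆ S.erase ω) {s : P}
    (hs : s ∈ B) {q j : ℕ}
    (h1 : kap (B.erase s) m k (m s) (k s) + j ≤ q + 1)
    (h2 : (∃ t ∈ B.erase s, m t = m s) → kap (B.erase s) m k (m s) (k s) + 1 + j ≤ q + 1) :
    (meets L (B.erase s) s).card + j ≤ q + 1 := by
  classical
  have hsS := hB hs
  have hsω : s ≠ ω := (Finset.mem_erase.mp hsS).1
  have hne : ∀ t ∈ B.erase s, s ≠ t := fun t ht => Ne.symm (Finset.mem_erase.mp ht).1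
  have hmem : ∀ t ∈ B.erase s, t ∈ S.erase ω := fun t ht => hB (Finset.mem_of_mem_erase ht)
  set I := ((B.erase s).filter (fun t => m t ≠ m s)).image (fun t => ln L s t) with hI
  have h3 : I.card ≤ kap (B.erase s) m k (m s) (k s) := by
    rw [kap]
    have : I.card ≤ (((B.erase s).filter (fun t => m t ≠ m s)).image
        (fun t => xco (m s) (k s) (m t) (k t))).card := by
      apply Finset.card_le_card_of_surjOn
        (fun x => if h : ∃ t ∈ (B.erase s).filter (fun t => m t ≠ m s),
          xco (m s) (k s) (m t) (k t) = x then ln L s h.choose else ln L s ω)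
      intro ℓ hℓ
      rw [Finset.mem_coe, hI, Finset.mem_image] at hℓ
      obtain ⟨t, ht, rfl⟩ := hℓ
      refine ⟨xco (m s) (k s) (m t) (k t), ?_, ?_⟩
      · rw [Finset.mem_coe, Finset.mem_image]
        exact ⟨t, ht, rfl⟩
      · have h : ∃ t' ∈ (B.erase s).filter (fun t => m t ≠ m s),
            xco (m s) (k s) (m t') (k t') = xco (m s) (k s) (m t) (k t) := ⟨t, ht, rfl⟩
        simp only [dif_pos h]
        obtain ⟨h2, h3⟩ := h.choose_spec
        obtain ⟨h4, h5⟩ := Finset.mem_filter.mp h2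
        obtain ⟨h6, h7⟩ := Finset.mem_filter.mp ht
        exact (hC.xco_iff hsS (hmem _ h4) (hmem _ h6) (hne _ h4) (hne _ h6) h5 h7).mp h3
    exact this
  by_cases hmate : ∃ t ∈ B.erase s, m t = m s
  · have h4 : meets L (B.erase s) s ⊆ insert (ln L s ω) I := by
      intro ℓ hℓ
      rw [mem_meets] at hℓ
      obtain ⟨hsl, t, ht, htl⟩ := hℓ
      by_cases hmt : m t = m s
      · have h5 : ω ∈ ln L s t := (hC.om s hsS t (hmem t ht) (hne t ht)).mpr hmt.symm
        have h6 : ℓ = ln L s t := eq_ln (hne t ht) hsl htl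
        rw [Finset.mem_insert]
        left
        rw [h6]
        exact ln_eq_of_mem (hne t ht) hsω h5
      · rw [Finset.mem_insert]
        right
        rw [hI, Finset.mem_image]
        exact ⟨t, Finset.mem_filter.mpr ⟨ht, hmt⟩, (eq_ln (hne t ht) hsl htl).symm⟩
    have h5 := Finset.card_le_card h4
    have h6 := Finset.card_insert_le (ln L s ω) I
    have h7 := h2 hmate
    omega
  · have h4 : meets L (B.erase s) s ⊆ I := by
      intro ℓ hℓ
      rw [mem_meets] at hℓ
      obtain ⟨hsl, t, ht, htl⟩ := hℓ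
      have hmt : m t ≠ m s := fun h => hmate ⟨t, ht, h⟩
      rw [hI, Finset.mem_image]
      exact ⟨t, Finset.mem_filter.mpr ⟨ht, hmt⟩, (eq_ln (hne t ht) hsl htl).symm⟩
    have h5 := Finset.card_le_card h4
    omega

end

end Pool.Agent.Helper61_Gamma
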