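import Mathlib
import Pool.Agent.Helper61_Gamma.Link

/-!
The potential `R2 X = ∑_ℓ (r_ℓ - 1)(r_ℓ - 2)` and the lower bound for the dimension of the space of
tangent vector fields.
-/

open Configuration Configuration.ProjectivePlane

namespace Pool.Agent.Helper61_Gamma

variable {P L : Type*} [Membership P L] [ProjectivePlane P L]
variable {K : Type*} [Field K] [DecidableEq P] [Fintype L] [DecidableEq L] [DecidableEq K]

/-- twice the sum of `binom (r_ℓ - 1) 2` over all lines -/
noncomputable def R2 (L : Type*) [Membership P L] [Fintype L] (X : Finset P) : ℕ :=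
  ∑ ℓ : L, (rk X ℓ - 1) * (rk X ℓ - 2)

omit [DecidableEq L] [ProjectivePlane P L] [Fintype L] in
lemma rk_insert {X : Finset P} {s : P} (hs : s ∉ X) (ℓ : L) :
    (s ∈ ℓ → rk (insert s X) ℓ = rk X ℓ + 1) ∧ (s ∉ ℓ → rk (insert s X) ℓ = rk X ℓ) := by
  classical
  constructor
  · intro h
    rw [rk, rk, Finset.filter_insert, if_pos h, Finset.card_insert_of_notMem]
    intro h1
    exact hs (Finset.mem_filter.mp h1).1
  · intro h
    rw [rk, rk, Finset.filter_insert, if_neg h]

omit [DecidableEq P] in
lemma sum_thr_trunc {X : Finset P} {s : P} (hs : s ∉ X) :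
    ∑ ℓ ∈ thr L s, (rk X ℓ - 1) + (meets L X s).card = X.card := by
  classical
  rw [← sum_rk_thr (L := L) hs, meets, Finset.card_filter, ← Finset.sum_add_distrib]
  apply Finset.sum_congr rfl
  intro ℓ _
  split_ifs with h
  · omega
  · omega

lemma R2_insert {X : Finset P} {s : P} (hs : s ∉ X) :
    R2 L (insert s X) + 2 * (meets L X s).card = R2 L X + 2 * X.card := by
  classical
  rw [← sum_thr_trunc (L := L) hs, R2, R2]
  have h1 : ∀ ℓ : L, (rk (insert s X) ℓ - 1) * (rk (insert s X) ℓ - 2) =
      (rk X ℓ - 1) * (rk X ℓ - 2) + 2 * (if s ∈ ℓ then rk X ℓ - 1 else 0) := by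
    intro ℓ
    obtain ⟨h2, h3⟩ := rk_insert hs ℓ
    split_ifs with h
    · rw [h2 h]
      rcases Nat.lt_or_ge (rk X ℓ) 2 with h4 | h4
      · interval_cases rk X ℓ <;> rfl
      · obtain ⟨a, ha⟩ := Nat.exists_eq_add_of_le h4
        rw [ha]
        have e1 : 2 + a + 1 - 1 = a + 2 := by omega
        have e2 : 2 + a + 1 - 2 = a + 1 := by omega
        have e3 : 2 + a - 1 = a + 1 := by omega
        have e4 : 2 + a - 2 = a := by omega
        rw [e1, e2, e3, e4]
        ring
    · rw [h3 h]
      ring
  simp only [h1]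
  rw [Finset.sum_add_distrib, ← Finset.mul_sum, ← Finset.sum_filter]
  have h2 : ∑ a ∈ Finset.univ.filter (fun ℓ : L => s ∈ ℓ), (rk X a - 1) =
      ∑ ℓ ∈ thr L s, (rk X ℓ - 1) := by
    apply Finset.sum_congr _ fun _ _ => rfl
    ext ℓ
    simp [mem_thr]
  rw [h2]
  ring

/-- The lower bound for the dimension. -/
theorem Coord.finrank_lower {S : Finset P} {ω : P} {m k : P → K} (hC : Coord L S ω m k) (D : ℕ)
    (A' : Finset P) (hA' : A' ⊆ S.erase ω) :
    2 * ((D + 1) * (D + 2)) + R2 L (insert ω A') ≤
      2 * Module.finrank K (VF A' m k D) + 2 * (A'.card * (D + 1)) +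
        2 * ∑ i ∈ Finset.range A'.card, (i - (D + 1)) := by
  classical
  induction A' using Finset.induction_on with
  | empty =>
    rw [VF_empty_finrank]
    have h1 : R2 L (insert ω (∅ : Finset P)) = 0 := by
      rw [R2]
      apply Finset.sum_eq_zero
      intro ℓ _
      have h2 : rk (insert ω (∅ : Finset P)) ℓ ≤ 1 := by
        rw [rk]
        exact (Finset.card_filter_le _ _).trans (by simp)
      have h3 : rk (insert ω (∅ : Finset P)) ℓ - 1 = 0 := by omega
      rw [h3, zero_mul]
    rw [h1]
    simp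
  | insert s A' hs ih =>
    have hsS : s ∈ S.erase ω := hA' (Finset.mem_insert_self _ _)
    have hA'' : A' ⊆ S.erase ω := fun t ht => hA' (Finset.mem_insert_of_mem ht)
    have h1 := ih hA''
    have hsω : s ≠ ω := (Finset.mem_erase.mp hsS).1
    have hωA : ω ∉ A' := fun h => (Finset.mem_erase.mp (hA'' h)).1 rfl
    have hs' : s ∉ insert ω A' := by
      rw [Finset.mem_insert]
      rintro (h | h)
      · exact hsω h
      · exact hs h
    have h2 := R2_insert (L := L) hs'
    rw [Finset.insert_comm, Finset.card_insert_of_notMem hωA] at h2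
    have h3 := hC.kap_lt_meets hA'' hsS hs
    have h4 := finrank_VF_le_insert (m := m) (k := k) (D := D) s
      (fun s hs t ht => hC.inj s (hA'' hs) t (hA'' ht))
    have h5 := kap_le A' m k (m s) (k s)
    rw [Finset.card_insert_of_notMem hs, Finset.sum_range_succ]
    have h6 : (A'.card + 1) * (D + 1) = A'.card * (D + 1) + (D + 1) := by ring
    rw [h6]
    omega

end Pool.Agent.Helper61_Gamma
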