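import Mathlib
import Pool.Agent.Helper61_Gamma.Pot

/-!
The abstract theorem: a point set in a projective plane of order `q` with few external lines which
has a coordinatisation over a field in which `q ≠ 0` contains a large subset all of whose points are
on tangents; and the numerical contradictions.
-/

open Configuration Configuration.ProjectivePlane

namespace Pool.Agent.Helper61_Gamma

variable {P L : Type*} [Membership P L] [ProjectivePlane P L]
variable {K : Type*} [Field K] [DecidableEq P] [Fintype L] [Fintype P]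

omit [DecidableEq P] in
lemma R2_eq (X : Finset P) :
    (R2 L X : ℤ) + 2 * tcount L X 0 = (X.card : ℤ) * (X.card + order P L)
      - 3 * (X.card * (order P L + 1)) + 2 * ((order P L) ^ 2 + order P L + 1) := by
  classical
  have h1 := sum_phi (L := L) X 1
  have h2 : ∑ ℓ : L, ((rk X ℓ : ℤ) - 1) * ((rk X ℓ : ℤ) - 1 - 1) =
      (R2 L X : ℤ) + 2 * tcount L X 0 := by
    rw [R2, tcount, Finset.card_filter]
    push_cast
    rw [Finset.mul_sum, ← Finset.sum_add_distrib]
    apply Finset.sum_congr rfl
    intro ℓ _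
    rcases Nat.lt_or_ge (rk X ℓ) 2 with h4 | h4
    · interval_cases rk X ℓ <;> simp
    · obtain ⟨a, ha⟩ := Nat.exists_eq_add_of_le h4
      rw [ha]
      have e3 : 2 + a - 1 = a + 1 := by omega
      have e4 : 2 + a - 2 = a := by omega
      rw [e3, e4]
      have e5 : ¬ (2 + a = 0) := by omega
      rw [if_neg e5]
      push_cast
      ring
  rw [← h2, h1]
  ring

lemma sum_range_trunc (N c : ℕ) (h : c ≤ N) :
    2 * ∑ i ∈ Finset.range N, (i - c) = (N - c) * (N - c - 1) := by
  obtain ⟨M, rfl⟩ := Nat.exists_eq_add_of_le h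
  have e1 : c + M - c = M := by omega
  rw [e1, Finset.sum_range_add]
  have h0 : ∑ x ∈ Finset.range c, (x - c) = 0 := by
    apply Finset.sum_eq_zero
    intro x hx
    have := Finset.mem_range.mp hx
    omega
  have h1 : ∀ x ∈ Finset.range M, c + x - c = x := by
    intro x _
    omega
  rw [h0, zero_add, Finset.sum_congr rfl h1, mul_comm, Finset.sum_range_id_mul_two]

lemma sum_range_trunc_zero (N c : ℕ) (h : N ≤ c) :
    ∑ i ∈ Finset.range N, (i - c) = 0 := by
  apply Finset.sum_eq_zero
  intro x hx
  have := Finset.mem_range.mp hx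
  omega

/-- **Existence of many tangents.** -/
theorem tangents_of_rep {S : Finset P} {ω : P} {m k : P → K} (hC : Coord L S ω m k)
    (hq : ((order P L : ℕ) : K) ≠ 0) (h1 : 3 * order P L + 1 ≤ S.card)
    (h2 : tcount L S 0 + 2 * order P L + 3 ≤ S.card) :
    ∃ (X : Finset P) (j : ℕ), X ⊆ S ∧ 1 ≤ j ∧ j ≤ order P L ∧ S.card ≤ X.card + (j + 1) ∧
      X.card + 1 ≤ S.card ∧ j * X.card ≤ tcount L X 1 := by
  classical
  set q := order P L with hqdef
  set N := (S.erase ω).card with hN
  have hNS : N + 1 = S.card := by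
    rw [hN, Finset.card_erase_of_mem hC.mem]
    have : 0 < S.card := Finset.card_pos.mpr ⟨ω, hC.mem⟩
    omega
  have hq1 : 1 ≤ q := by
    rcases Nat.eq_zero_or_pos q with h | h
    · rw [h] at hq
      simp at hq
    · exact h
  have hR := R2_eq (L := L) S
  have hins : insert ω (S.erase ω) = S := Finset.insert_erase hC.mem
  rw [← hNS] at hR
  -- existence
  have hlow1 := hC.finrank_lower (N - q - 1) (S.erase ω) (Finset.Subset.refl _)
  rw [hins, ← hN, ] at hlow1
  have e1 : N - q - 1 + 1 = N - q := by omega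
  have e2 : N - q - 1 + 2 = N - q + 1 := by omega
  rw [e1, e2, sum_range_trunc N (N - q) (by omega)] at hlow1
  have e3 : N - (N - q) = q := by omega
  rw [e3] at hlow1
  have hpos : 0 < Module.finrank K (VF (S.erase ω) m k (N - q - 1)) := by
    rw [Nat.pos_iff_ne_zero]
    intro h0
    rw [h0] at hlow1
    obtain ⟨u, hu⟩ : ∃ u, N = 3 * q + u := Nat.exists_eq_add_of_le (by omega)
    obtain ⟨q', hq'⟩ : ∃ q', q = q' + 1 := ⟨q - 1, by omega⟩
    have e4 : N - q = 2 * q + u := by omega
    have e5 : q - 1 = q' := by omega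
    rw [e4, e5] at hlow1
    zify at hlow1
    have hN' : (N : ℤ) = 3 * q + u := by exact_mod_cast hu
    have hq'' : (q : ℤ) = q' + 1 := by exact_mod_cast hq'
    have h2' : (tcount L S 0 : ℤ) + 2 * q + 3 ≤ N + 1 := by
      rw [← hNS] at h2
      exact_mod_cast h2
    push_cast at hR
    rw [← hqdef, hN'] at hR
    rw [hN'] at hlow1 h2'
    have hu0 : (0 : ℤ) ≤ u := Int.natCast_nonneg u
    have hq0 : (0 : ℤ) ≤ q' := Int.natCast_nonneg q'
    rw [hq''] at hR hlow1 h2'
    have hm1 := mul_nonneg hu0 hq0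
    have hm2 := mul_nonneg hu0 hu0
    linarith
  obtain ⟨θ₀, hmin, hdeg⟩ := exists_isMin hpos
  -- upper bound
  set r := mdeg θ₀ with hr
  have hupp := finrank_VF_upper hC.inj hmin (D := 2 * N) (by omega) (by omega)
  have hlow2 := hC.finrank_lower (2 * N) (S.erase ω) (Finset.Subset.refl _)
  rw [hins, ← hN, sum_range_trunc_zero N (2 * N + 1) (by omega)] at hlow2
  rw [← hN, ← hr] at hupp
  have hrq : r ≤ q := by
    by_contra hcon
    push Not at hcon
    obtain ⟨a, ha⟩ : ∃ a, r = q + 1 + a := Nat.exists_eq_add_of_le (by omega)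
    obtain ⟨b, hb⟩ : ∃ b, N = q + r + 1 + b := Nat.exists_eq_add_of_le (by omega)
    have e4 : 2 * N - r = N + q + 1 + b := by omega
    have e5 : 2 * N + r - N = N + r := by omega
    rw [e4, e5] at hupp
    zify at hupp hlow2
    have h2' : (tcount L S 0 : ℤ) + 2 * q + 3 ≤ N + 1 := by
      rw [← hNS] at h2
      exact_mod_cast h2
    push_cast at hR
    rw [← hqdef] at hR
    have hr' : (r : ℤ) = q + 1 + a := by exact_mod_cast ha
    have hN' : (N : ℤ) = q + r + 1 + b := by exact_mod_cast hb
    rw [hr'] at hN'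
    rw [hr'] at hupp
    have ha0 : (0 : ℤ) ≤ a := Int.natCast_nonneg a
    have hb0 : (0 : ℤ) ≤ b := Int.natCast_nonneg b
    have key : ((a : ℤ) + 1) * (b + 1) ≤ tcount L S 0 := by
      rw [hN'] at hupp hlow2 hR
      linarith
    rw [hN'] at h2'
    have hm := mul_nonneg ha0 hb0
    linarith
  obtain ⟨T, j, hT, hj1, hjq, hTj, hkap⟩ :=
    structure_thm hC.inj hmin hq hrq (by omega)
  refine ⟨S.erase ω \ T, j, ?_, hj1, hjq, ?_, ?_, ?_⟩
  · exact Finset.sdiff_subset.trans (Finset.erase_subset _ _)
  · have := Finset.card_sdiff_add_card_eq_card hT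
    omega
  · have := Finset.card_sdiff_add_card_eq_card hT
    omega
  · apply tcount_one_ge
    intro s hs
    have hm := hC.meets_le (L := L) Finset.sdiff_subset hs (hkap s hs).1 (hkap s hs).2
    have hthr := card_thr (P := P) (L := L) s
    have hsplit : (meets L ((S.erase ω \ T).erase s) s).card +
        ((thr L s).filter (fun ℓ => rk (S.erase ω \ T) ℓ = 1)).card = (thr L s).card := by
      rw [meets, ← Finset.card_filter_add_card_filter_not
        (fun ℓ => 1 ≤ rk ((S.erase ω \ T).erase s) ℓ) (s := thr L s)]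
      congr 2
      apply Finset.filter_congr
      intro ℓ hℓ
      have h3 := (rk_insert (Finset.notMem_erase s (S.erase ω \ T)) ℓ).1 (mem_thr.mp hℓ)
      rw [Finset.insert_erase hs] at h3
      omega
    omega

end Pool.Agent.Helper61_Gamma
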