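import Mathlib
import Pool.Agent.Helper61_Gamma.Abs

/-!
Numerical contradictions.
-/

open Configuration Configuration.ProjectivePlane

namespace Pool.Agent.Helper61_Gamma

lemma final_ineq (c q j i x : ℤ) (hc : 3 ≤ c) (hcq : c ≤ q) (hc2 : q + 2 ≤ c * c)
    (hj1 : 1 ≤ j) (hjq : j ≤ q) (hi1 : 1 ≤ i) (hij : i ≤ j + 1) (hx : x = c * (q + 1) - i)
    (h : c * (c - 1) * (j * x) ≤ c * q * (q - c) + i * (i + 1)) : False := by
  have hcc : 6 ≤ c * (c - 1) := by nlinarith
  -- replace `i` by `j + 1`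
  have h1 : i * (i + 1) ≤ (j + 1) * (j + 2) := by nlinarith
  have h2 : j * (c * (q + 1) - 1 - j) ≤ j * x := by
    rw [hx]
    nlinarith
  have h3 : c * (c - 1) * (j * (c * (q + 1) - 1 - j)) ≤ c * (c - 1) * (j * x) :=
    mul_le_mul_of_nonneg_left h2 (by linarith)
  have hcq1 : 3 * (q + 1) ≤ c * (q + 1) := by nlinarith
  -- (B)
  have hB : 0 ≤ (j - 1) * (c * (c - 1) * (c * (q + 1) - 2 - j) - (j + 4)) := by
    apply mul_nonneg (by linarith)
    have h4 : 0 ≤ c * (q + 1) - 2 - j := by linarith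
    have h5 : 6 * (c * (q + 1) - 2 - j) ≤ c * (c - 1) * (c * (q + 1) - 2 - j) :=
      mul_le_mul_of_nonneg_right hcc h4
    linarith
  -- (A)
  have hA : c * q * (q - c) + 6 < c * (c - 1) * (c * (q + 1) - 2) := by
    have h6 : c * (c - 1) * (c * (q + 1) - 2) - c * q * (q - c) =
        c * (c * c * (q + 1) - 3 * c + 2 - q * q) := by ring
    have h7 : (q + 2) * (q + 1) ≤ c * c * (q + 1) := mul_le_mul_of_nonneg_right hc2 (by linarith)
    have h8 : 4 ≤ c * c * (q + 1) - 3 * c + 2 - q * q := by nlinarith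
    have h9 : c * 4 ≤ c * (c * c * (q + 1) - 3 * c + 2 - q * q) :=
      mul_le_mul_of_nonneg_left h8 (by linarith)
    linarith
  have hid : c * (c - 1) * (j * (c * (q + 1) - 1 - j)) - (j + 1) * (j + 2) =
      (c * (c - 1) * (c * (q + 1) - 2) - 6) +
        (j - 1) * (c * (c - 1) * (c * (q + 1) - 2 - j) - (j + 4)) := by ring
  linarith

variable {P L : Type*} [Membership P L] [ProjectivePlane P L]
variable {K : Type*} [Field K] [DecidableEq P] [Fintype L] [Fintype P]

theorem no_coord {S : Finset P} {ω : P} {m k : P → K} (hC : Coord L S ω m k)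
    (hq : ((order P L : ℕ) : K) ≠ 0) (c : ℕ) (hc : 3 ≤ c) (hcq : c ≤ order P L)
    (hc2 : order P L + 2 ≤ c * c) (hS : S.card = c * (order P L + 1)) : False := by
  classical
  have ht0 := tcount_le (L := L) S c 0
  set q := order P L with hqdef
  have hcZ : (3 : ℤ) ≤ c := by exact_mod_cast hc
  have hcqZ : (c : ℤ) ≤ q := by exact_mod_cast hcq
  have hc2Z : (q : ℤ) + 2 ≤ c * c := by exact_mod_cast hc2
  have hSZ : (S.card : ℤ) = c * (q + 1) := by exact_mod_cast hS
  have h2 : tcount L S 0 + 2 * q + 3 ≤ S.card := by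
    by_contra hcon
    push Not at hcon
    have hcon' : (c : ℤ) * (q + 1) ≤ tcount L S 0 + 2 * q + 2 := by
      rw [hS] at hcon
      have : c * (q + 1) ≤ tcount L S 0 + 2 * q + 2 := by omega
      exact_mod_cast this
    rw [hSZ] at ht0
    have h3 : (c : ℤ) * ((c + 1) * tcount L S 0) ≤ c * (q * (q - c)) := by
      push_cast at ht0
      linarith
    have h4 : ((c : ℤ) + 1) * tcount L S 0 ≤ q * (q - c) :=
      le_of_mul_le_mul_left h3 (by linarith)
    have h5 : ((c : ℤ) + 1) * ((c - 2) * (q + 1)) ≤ (c + 1) * tcount L S 0 :=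
      mul_le_mul_of_nonneg_left (by linarith) (by linarith)
    have h6 : ((c : ℤ) + 1) * ((c - 2) * (q + 1)) = (c * c - c - 2) * (q + 1) := by ring
    have h7 : ((q : ℤ) - c) * (q + 1) ≤ (c * c - c - 2) * (q + 1) :=
      mul_le_mul_of_nonneg_right (by linarith) (by linarith)
    have h8 : (4 : ℤ) * (q + 1) ≤ (c * c - c - 2) * (q + 1) :=
      mul_le_mul_of_nonneg_right (by nlinarith) (by linarith)
    nlinarith
  obtain ⟨X, j, hXS, hj1, hjq, hX1, hX2, ht1⟩ := tangents_of_rep hC hq (by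
    rw [hS]
    nlinarith) h2
  have h1 := tcount_le (L := L) X c 1
  rw [← hqdef] at hjq h1
  obtain ⟨i, hi⟩ : ∃ i : ℤ, (X.card : ℤ) = c * (q + 1) - i := ⟨c * (q + 1) - X.card, by ring⟩
  apply final_ineq c q j i X.card hcZ hcqZ hc2Z (by exact_mod_cast hj1) (by exact_mod_cast hjq)
  · have : (X.card : ℤ) + 1 ≤ S.card := by exact_mod_cast hX2
    linarith
  · have : (S.card : ℤ) ≤ X.card + (j + 1) := by exact_mod_cast hX1
    linarith
  · exact hi
  · have h9 : (c : ℤ) * (c - 1) * (j * X.card) ≤ c * (c - 1) * tcount L X 1 := by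
      apply mul_le_mul_of_nonneg_left (by exact_mod_cast ht1)
      nlinarith
    have h10 : (X.card : ℤ) * (X.card + q) - (2 * c + 1) * (X.card * (q + 1)) +
        c * (c + 1) * (q ^ 2 + q + 1) = c * q * (q - c) + i * (i + 1) := by
      rw [hi]
      ring
    push_cast at h1
    linarith

theorem no_coord_five {S : Finset P} {ω : P} {m k : P → K} (hC : Coord L S ω m k)
    (hq : ((order P L : ℕ) : K) ≠ 0) (h5 : order P L = 5) (hS : S.card = 16) : False := by
  classical
  have ht0 := tcount_le (L := L) S 3 0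
  rw [h5, hS] at ht0
  norm_num at ht0
  have h2 : tcount L S 0 + 2 * order P L + 3 ≤ S.card := by
    rw [h5, hS]
    omega
  obtain ⟨X, j, hXS, hj1, hjq, hX1, hX2, ht1⟩ := tangents_of_rep hC hq (by
    rw [hS, h5]) h2
  have h1 := tcount_le (L := L) X 3 1
  rw [h5] at hjq h1
  rw [hS] at hX1 hX2
  have hX3 : 9 ≤ X.card := by omega
  have hX4 : X.card ≤ 15 := by omega
  norm_num at h1
  interval_cases j <;> interval_cases hx : X.card <;> simp_all <;> omega

end Pool.Agent.Helper61_Gamma
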