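import Mathlib
import Pool.Agent.Helper61_Gamma.Rep
import Pool.Agent.Helper61_Gamma.Num

/-!
From a simple rank three matroid representable over two fields to coordinates.
-/

namespace Pool.Agent.Helper61_Gamma

open Configuration Projectivization
open scoped LinearAlgebra.Projectivization

section plane
variable {F : Type*} [Field F] [DecidableEq F]

lemma mem_ln_mk {a b c : Fin 3 → F} (ha : a ≠ 0) (hb : b ≠ 0) (hc : c ≠ 0)
    (h : mk F a ha ≠ mk F b hb) :
    mk F c hc ∈ ln (ℙ F (Fin 3 → F)) (mk F a ha) (mk F b hb) ↔ Dt a b c = 0 := by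
  have h1 : cross (mk F a ha) (mk F b hb) = ln (ℙ F (Fin 3 → F)) (mk F a ha) (mk F b hb) :=
    eq_ln h (orthogonal_cross_left h) (orthogonal_cross_right h)
  rw [← h1, cross_mk_of_ne ha hb h, ofField.mem_iff, orthogonal_mk, cross_apply, Dt]
  simp only [dotProduct, Fin.sum_univ_three, Matrix.cons_val_zero, Matrix.cons_val_one,
    Matrix.cons_val]
  constructor
  · intro h2
    linear_combination h2
  · intro h2
    linear_combination h2

lemma order_PP [Finite F] :
    ProjectivePlane.order (ℙ F (Fin 3 → F)) (ℙ F (Fin 3 → F)) = Nat.card F := by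
  classical
  have : Fintype (ℙ F (Fin 3 → F)) := Fintype.ofFinite _
  have h1 := ProjectivePlane.card_points (ℙ F (Fin 3 → F)) (ℙ F (Fin 3 → F))
  have h2 := Projectivization.card_of_finrank F (Fin 3 → F) (n := 3) (by simp)
  rw [Nat.card_eq_fintype_card, h1] at h2
  simp only [Finset.sum_range_succ, Finset.sum_range_zero, pow_zero, pow_one, zero_add] at h2
  set x := ProjectivePlane.order (ℙ F (Fin 3 → F)) (ℙ F (Fin 3 → F))
  set y := Nat.card F
  rcases lt_trichotomy x y with h | h | h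
  · exfalso
    nlinarith
  · exact h
  · exfalso
    nlinarith

end plane

universe u v w

lemma third {α : Type u} {M : Matroid α} (hs : IsSimple M) (hr : M.eRank = 3) {s t : α}
    (hsE : s ∈ M.E) (htE : t ∈ M.E) (hst : s ≠ t) :
    ∃ r ∈ M.E, s ≠ r ∧ t ≠ r ∧ M.Indep {s, t, r} := by
  obtain ⟨B, hB, hsub⟩ := (hs s hsE t htE).exists_isBase_superset
  have hcard : B.encard = 3 := by rw [hB.encard_eq_eRank, hr]
  have hne : ({s, t} : Set α) ≠ B := by
    rintro rfl
    rw [Set.encard_pair hst] at hcard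
    norm_num at hcard
  obtain ⟨r, hrB, hrs⟩ := Set.exists_of_ssubset (hsub.ssubset_of_ne hne)
  simp only [Set.mem_insert_iff, Set.mem_singleton_iff, not_or] at hrs
  refine ⟨r, hB.subset_ground hrB, Ne.symm hrs.1, Ne.symm hrs.2, hB.indep.subset ?_⟩
  intro x hx
  simp only [Set.mem_insert_iff, Set.mem_singleton_iff] at hx
  rcases hx with rfl | rfl | rfl
  · exact hsub (by simp)
  · exact hsub (by simp)
  · exact hrB

/-- normal form for the determinant -/
lemma Dt_scale {K : Type v} [Field K] {A B C : Fin 3 → K} {l dA dB dC : K}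
    (hA : dA = A 0 + l * A 1) (hB : dB = B 0 + l * B 1) (hC : dC = C 0 + l * C 1)
    (hA0 : dA ≠ 0) (hB0 : dB ≠ 0) (hC0 : dC ≠ 0) :
    Dt A B C = dA * dB * dC * ((-B 1 / dB - -A 1 / dA) * (-C 2 / dC - -A 2 / dA) -
      (-C 1 / dC - -A 1 / dA) * (-B 2 / dB - -A 2 / dA)) := by
  have eA : A 0 = dA - l * A 1 := by rw [hA]; ring
  have eB : B 0 = dB - l * B 1 := by rw [hB]; ring
  have eC : C 0 = dC - l * C 1 := by rw [hC]; ring
  rw [Dt, eA, eB, eC]
  clear hA hB hC eA eB eC
  field_simp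
  ring

theorem exists_coord_of_rep {F : Type w} [Field F] [DecidableEq F] {K : Type v} [Field K]
    {α : Type u} {M : Matroid α} (hs : IsSimple M) (hr : M.eRank = 3) (hF : RepOver F M)
    (hK : RepOver K M) {E' : Finset α} (hE : (E' : Set α) ⊆ M.E) {ω : α} (hω : ω ∈ E')
    [DecidableEq (ℙ F (Fin 3 → F))] :
    ∃ (S : Finset (ℙ F (Fin 3 → F))) (ω' : ℙ F (Fin 3 → F))
      (m k : ℙ F (Fin 3 → F) → AlgebraicClosure K),
      S.card = E'.card ∧ Coord (ℙ F (Fin 3 → F)) S ω' m k := by
  classical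
  have hωE : ω ∈ M.E := hE hω
  have hsing : ∀ e ∈ M.E, M.Indep {e} := by
    intro e he
    have := hs e he e he
    rwa [Set.pair_eq_singleton] at this
  obtain ⟨a, haω, ha⟩ := exists_coords hF hr (hsing ω hωE)
  obtain ⟨c, hcω, hc⟩ := exists_coords hK hr (hsing ω hωE)
  have ha0 : ∀ e ∈ M.E, a e ≠ 0 := by
    intro e he
    have h1 := (ha {e} (Set.singleton_subset_iff.mpr he)).mp (hsing e he)
    exact (linearIndepOn_singleton_iff F).mp h1
  have hsub : ∀ s ∈ M.E, ∀ t ∈ M.E, ∀ r ∈ M.E, ({s, t, r} : Set α) ⊆ M.E := by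
    intro s hs t ht r hr x hx
    simp only [Set.mem_insert_iff, Set.mem_singleton_iff] at hx
    rcases hx with rfl | rfl | rfl <;> assumption
  have hindA : ∀ s ∈ M.E, ∀ t ∈ M.E, ∀ r ∈ M.E, s ≠ t → s ≠ r → t ≠ r →
      (M.Indep {s, t, r} ↔ Dt (a s) (a t) (a r) ≠ 0) := by
    intro s hs t ht r hr h1 h2 h3
    rw [ha _ (hsub s hs t ht r hr), linearIndepOn_iff_Dt a h1 h2 h3]
  let C : α → Fin 3 → AlgebraicClosure K := fun e i => algebraMap K (AlgebraicClosure K) (c e i)
  have hDtC : ∀ s t r, Dt (C s) (C t) (C r) =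
      algebraMap K (AlgebraicClosure K) (Dt (c s) (c t) (c r)) := by
    intro s t r
    simp only [Dt, C, map_add, map_sub, map_mul]
  have hindC : ∀ s ∈ M.E, ∀ t ∈ M.E, ∀ r ∈ M.E, s ≠ t → s ≠ r → t ≠ r →
      (M.Indep {s, t, r} ↔ Dt (C s) (C t) (C r) ≠ 0) := by
    intro s hs t ht r hr h1 h2 h3
    rw [hc _ (hsub s hs t ht r hr), linearIndepOn_iff_Dt c h1 h2 h3, hDtC, Ne, Ne,
      map_eq_zero_iff _ (algebraMap K (AlgebraicClosure K)).injective]
  have htriple : ∀ s ∈ M.E, ∀ t ∈ M.E, ∀ r ∈ M.E, s ≠ t → s ≠ r → t ≠ r →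
      (Dt (a s) (a t) (a r) = 0 ↔ Dt (C s) (C t) (C r) = 0) := by
    intro s hs t ht r hr h1 h2 h3
    have h4 := (hindA s hs t ht r hr h1 h2 h3).symm.trans (hindC s hs t ht r hr h1 h2 h3)
    tauto
  have hCω : C ω = ![0, 0, 1] := by
    funext i
    simp only [C, hcω]
    fin_cases i <;> simp
  -- a good parameter
  obtain ⟨l, hl⟩ := Infinite.exists_notMem_finset (E'.image (fun e => -C e 0 / C e 1))
  have hd : ∀ e ∈ E', e ≠ ω → C e 0 + l * C e 1 ≠ 0 := by
    intro e he hne h0
    by_cases h1 : C e 1 = 0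
    · rw [h1, mul_zero, add_zero] at h0
      obtain ⟨r, hrE, h2, h3, h4⟩ := third hs hr (hE he) hωE hne
      have h5 := (hindC e (hE he) ω hωE r hrE hne h2 h3).mp h4
      apply h5
      rw [Dt, h0, h1, hCω]
      simp
    · apply hl
      rw [Finset.mem_image]
      refine ⟨e, he, ?_⟩
      rw [div_eq_iff h1]
      linear_combination -h0
  -- points
  let pt : α → ℙ F (Fin 3 → F) := fun e =>
    if h : a e ≠ 0 then mk F (a e) h else mk F (a ω) (ha0 ω hωE)
  have hpt : ∀ e (he : e ∈ M.E), pt e = mk F (a e) (ha0 e he) := by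
    intro e he
    simp only [pt]
    rw [dif_pos (ha0 e he)]
  have hinj : Set.InjOn pt M.E := by
    intro s hsE t htE hst
    by_contra hne
    rw [hpt s hsE, hpt t htE, mk_eq_mk_iff'] at hst
    obtain ⟨x, hx⟩ := hst
    obtain ⟨r, hrE, h2, h3, h4⟩ := third hs hr hsE htE hne
    have h5 := (hindA s hsE t htE r hrE hne h2 h3).mp h4
    apply h5
    rw [← hx, Dt]
    simp only [Pi.smul_apply, smul_eq_mul]
    ring
  have hinjE : Set.InjOn pt (E' : Set α) := hinj.mono hE
  have : Nonempty α := ⟨ω⟩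
  let g := Function.invFunOn pt (E' : Set α)
  have hg : ∀ e ∈ E', g (pt e) = e := fun e he => hinjE.leftInvOn_invFunOn he
  let d : α → AlgebraicClosure K := fun e => C e 0 + l * C e 1
  refine ⟨E'.image pt, pt ω, fun p => -C (g p) 1 / d (g p), fun p => -C (g p) 2 / d (g p),
    Finset.card_image_of_injOn hinjE, ?_⟩
  have hcases : ∀ s ∈ (E'.image pt).erase (pt ω), ∃ e ∈ E', e ≠ ω ∧ pt e = s := by
    intro s hs
    obtain ⟨h1, h2⟩ := Finset.mem_erase.mp hs
    obtain ⟨e, he, rfl⟩ := Finset.mem_image.mp h2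
    exact ⟨e, he, fun h => h1 (by rw [h]), rfl⟩
  constructor
  · exact Finset.mem_image_of_mem _ hω
  · intro s hsS t htS hst
    obtain ⟨e, he, heω, rfl⟩ := hcases s hsS
    obtain ⟨f, hf, hfω, rfl⟩ := hcases t htS
    rw [hg e he, hg f hf]
    have hef : e ≠ f := fun h => hst (by rw [h])
    by_contra hcon
    push Not at hcon
    obtain ⟨h1, h2⟩ := hcon
    have hde := hd e he heω
    have hdf := hd f hf hfω
    obtain ⟨r, hrE, h3, h4, h5⟩ := third hs hr (hE he) (hE hf) hef
    have h6 := (hindC e (hE he) f (hE hf) r hrE hef h3 h4).mp h5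
    rw [div_eq_div_iff hde hdf] at h1 h2
    apply h6
    have h7 : C e 1 * d f = C f 1 * d e := by linear_combination -h1
    have h8 : C e 2 * d f = C f 2 * d e := by linear_combination -h2
    have h9 : C e 0 * d f = C f 0 * d e := by
      simp only [d] at h7 ⊢
      linear_combination (-l) * h7
    have h10 : d f * Dt (C e) (C f) (C r) = 0 := by
      rw [Dt]
      linear_combination (C f 1 * C r 2 - C f 2 * C r 1) * h9 -
        (C f 0 * C r 2 - C f 2 * C r 0) * h7 + (C f 0 * C r 1 - C f 1 * C r 0) * h8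
    exact (mul_eq_zero.mp h10).resolve_left hdf
  · intro s hsS t htS hst
    obtain ⟨e, he, heω, rfl⟩ := hcases s hsS
    obtain ⟨f, hf, hfω, rfl⟩ := hcases t htS
    rw [hg e he, hg f hf]
    have hef : e ≠ f := fun h => hst (by rw [h])
    have hde := hd e he heω
    have hdf := hd f hf hfω
    rw [hpt e (hE he), hpt f (hE hf)] at hst
    rw [hpt e (hE he), hpt f (hE hf), hpt ω hωE, mem_ln_mk _ _ _ hst,
      htriple e (hE he) f (hE hf) ω hωE hef heω hfω, Dt, hCω, div_eq_div_iff hde hdf]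
    simp only [Matrix.cons_val_zero, Matrix.cons_val_one, Matrix.cons_val]
    constructor
    · intro h1
      linear_combination h1
    · intro h1
      linear_combination h1
  · intro s hsS t htS u huS hst hsu htu
    obtain ⟨e, he, heω, rfl⟩ := hcases s hsS
    obtain ⟨f, hf, hfω, rfl⟩ := hcases t htS
    obtain ⟨r, hr', hrω, rfl⟩ := hcases u huS
    rw [hg e he, hg f hf, hg r hr']
    have hef : e ≠ f := fun h => hst (by rw [h])
    have her : e ≠ r := fun h => hsu (by rw [h])
    have hfr : f ≠ r := fun h => htu (by rw [h])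
    have hde := hd e he heω
    have hdf := hd f hf hfω
    have hdr := hd r hr' hrω
    rw [hpt e (hE he), hpt f (hE hf)] at hst
    rw [hpt e (hE he), hpt f (hE hf), hpt r (hE hr'), mem_ln_mk _ _ _ hst,
      htriple e (hE he) f (hE hf) r (hE hr') hef her hfr,
      Dt_scale (l := l) (dA := d e) (dB := d f) (dC := d r) rfl rfl rfl hde hdf hdr,
      mul_eq_zero, or_iff_right (mul_ne_zero (mul_ne_zero hde hdf) hdr), sub_eq_zero]

end Pool.Agent.Helper61_Gamma
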