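import Mathlib
import Pool.Agent.Helper61_Gamma.Glue

/-!
Upper bounds for the size of a simple rank three matroid representable over `GF(p)` and over a field
of another characteristic.
-/

namespace Pool.Agent.Helper61_Gamma

open Set
open scoped LinearAlgebra.Projectivization

universe u v

/-- `N` has the property in the definition of `γ(p)`: for every simple rank three matroid `M` which
is representable over `GF(p)` and has at least `N` points, every field over which `M` is
representable has characteristic `p`. -/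
def Forces (p : ℕ) [Fact p.Prime] (N : ℕ) : Prop :=
  ∀ (α : Type u) (M : Matroid α), IsSimple M → M.eRank = 3 → RepOver (ZMod p) M →
    (N : ℕ∞) ≤ M.E.encard → ∀ (K : Type v) [Field K], RepOver K M → CharP K p

lemma forces_of_coord (p : ℕ) [hp : Fact p.Prime] (N : ℕ) (hN : 0 < N)
    (H : ∀ (K : Type v) [Field K] (S : Finset (ℙ (ZMod p) (Fin 3 → ZMod p)))
      (ω : ℙ (ZMod p) (Fin 3 → ZMod p)) (m k : ℙ (ZMod p) (Fin 3 → ZMod p) → K)
      [DecidableEq (ℙ (ZMod p) (Fin 3 → ZMod p))],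
      Coord (ℙ (ZMod p) (Fin 3 → ZMod p)) S ω m k → ((p : ℕ) : K) ≠ 0 → S.card = N → False) :
    Forces.{u, v} p N := by
  classical
  intro α M hs hr hF hNM K _ hK
  by_contra hch
  have hp0 : (p : K) ≠ 0 := fun h => hch ((CharP.charP_iff_prime_eq_zero hp.out).mpr h)
  obtain ⟨E0, hE0, hcard⟩ := Set.exists_subset_encard_eq hNM
  have hfin : E0.Finite := Set.finite_of_encard_eq_coe hcard
  have hE' : (hfin.toFinset : Set α) = E0 := hfin.coe_toFinset
  have hc : hfin.toFinset.card = N := by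
    have h1 : ((hfin.toFinset.card : ℕ) : ℕ∞) = N := by
      rw [← Set.encard_coe_eq_coe_finsetCard, hE', hcard]
    exact_mod_cast h1
  obtain ⟨ω, hω⟩ : hfin.toFinset.Nonempty := Finset.card_pos.mp (by omega)
  obtain ⟨S, ω', m, k, hSc, hC⟩ := exists_coord_of_rep hs hr hF hK
    (E' := hfin.toFinset) (by rw [hE']; exact hE0) hω
  apply H (AlgebraicClosure K) S ω' m k hC _ (hSc.trans hc)
  intro h
  apply hp0
  apply (algebraMap K (AlgebraicClosure K)).injective
  rw [map_natCast, map_zero]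
  exact h

theorem forces_main (p : ℕ) [hp : Fact p.Prime] (c : ℕ) (hc : 3 ≤ c) (hcp : c ≤ p)
    (hc2 : p + 2 ≤ c * c) : Forces.{u, v} p (c * (p + 1)) := by
  classical
  apply forces_of_coord p _ (by positivity)
  intro K _ S ω m k _ hC hp0 hS
  have : Fintype (ℙ (ZMod p) (Fin 3 → ZMod p)) := Fintype.ofFinite _
  have ho : Configuration.ProjectivePlane.order (ℙ (ZMod p) (Fin 3 → ZMod p))
      (ℙ (ZMod p) (Fin 3 → ZMod p)) = p := by
    rw [order_PP, Nat.card_zmod]
  exact no_coord hC (by rw [ho]; exact hp0) c hc (by rw [ho]; exact hcp) (by rw [ho]; exact hc2)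
    (by rw [ho]; exact hS)

theorem forces_five [hp : Fact (Nat.Prime 5)] : Forces.{u, v} 5 16 := by
  classical
  apply forces_of_coord 5 _ (by positivity)
  intro K _ S ω m k _ hC hp0 hS
  have : Fintype (ℙ (ZMod 5) (Fin 3 → ZMod 5)) := Fintype.ofFinite _
  have ho : Configuration.ProjectivePlane.order (ℙ (ZMod 5) (Fin 3 → ZMod 5))
      (ℙ (ZMod 5) (Fin 3 → ZMod 5)) = 5 := by
    rw [order_PP, Nat.card_zmod]
  exact no_coord_five hC (by rw [ho]; exact hp0) ho hS

lemma ceil_sqrt_facts {p : ℕ} (hp : p.Prime) (h5 : 5 ≤ p) :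
    3 ≤ ⌈√(p : ℝ)⌉₊ ∧ ⌈√(p : ℝ)⌉₊ ≤ p ∧ p + 2 ≤ ⌈√(p : ℝ)⌉₊ * ⌈√(p : ℝ)⌉₊ := by
  set c := ⌈√(p : ℝ)⌉₊ with hc
  have h1 : √(p : ℝ) ≤ c := Nat.le_ceil _
  have h0 : (0 : ℝ) ≤ √(p : ℝ) := Real.sqrt_nonneg _
  have h2 : (p : ℝ) ≤ (c : ℝ) * c := by
    have := Real.mul_self_sqrt (Nat.cast_nonneg (α := ℝ) p)
    nlinarith
  have h3 : p ≤ c * c := by exact_mod_cast h2
  have hc3 : 3 ≤ c := by
    by_contra hcon
    push Not at hcon
    have : c * c ≤ 2 * 2 := Nat.mul_le_mul (by omega) (by omega)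
    omega
  refine ⟨hc3, ?_, ?_⟩
  · rw [hc]
    apply Nat.ceil_le.mpr
    rw [Real.sqrt_le_left (Nat.cast_nonneg p)]
    have : (1 : ℝ) ≤ p := by
      have : 1 ≤ p := by omega
      exact_mod_cast this
    nlinarith
  · rcases Nat.lt_or_ge (c * c) (p + 2) with h | h
    · exfalso
      rcases Nat.lt_or_ge (c * c) (p + 1) with h4 | h4
      · have h5 : p = c * c := by omega
        rw [h5] at hp
        exact Nat.not_prime_mul (by omega) (by omega) hp
      · have h5 : c * c = p + 1 := by omega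
        obtain ⟨b, hb⟩ : ∃ b, c = b + 1 := ⟨c - 1, by omega⟩
        have h6 : p = b * (b + 2) := by
          rw [hb] at h5
          nlinarith
        rw [h6] at hp
        exact Nat.not_prime_mul (by omega) (by omega) hp
    · exact h

end Pool.Agent.Helper61_Gamma
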