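import Mathlib
import Pool.Agent.Helper61_Gamma.Low

/-!
The Dowling geometry of the cyclic group of order four, over `GF(5)` and over `GF(13)`.
-/

namespace Pool.Agent.Helper61_Gamma

open Set

universe u v

/-- integer determinant -/
def DtZ (a b c : Fin 3 → ℤ) : ℤ :=
  a 0 * (b 1 * c 2 - b 2 * c 1) - a 1 * (b 0 * c 2 - b 2 * c 0) + a 2 * (b 0 * c 1 - b 1 * c 0)

/-- the fifteen vectors for a list of four group elements -/
def tbl (g : Fin 4 → ℤ) : Fin 15 → Fin 3 → ℤ :=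
  ![![1, 0, 0], ![0, 1, 0], ![0, 0, 1],
    ![1, -g 0, 0], ![1, -g 1, 0], ![1, -g 2, 0], ![1, -g 3, 0],
    ![0, 1, -g 0], ![0, 1, -g 1], ![0, 1, -g 2], ![0, 1, -g 3],
    ![-g 0, 0, 1], ![-g 1, 0, 1], ![-g 2, 0, 1], ![-g 3, 0, 1]]

lemma tbl_key : ∀ s t r : Fin 15,
    ((5 : ℤ) ∣ DtZ (tbl ![1, 2, 4, 3] s) (tbl ![1, 2, 4, 3] t) (tbl ![1, 2, 4, 3] r)) ↔
    ((13 : ℤ) ∣ DtZ (tbl ![1, 5, 12, 8] s) (tbl ![1, 5, 12, 8] t) (tbl ![1, 5, 12, 8] r)) := by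
  decide +kernel

lemma tbl_simple : ∀ s t : Fin 15, s ≠ t → ∃ r : Fin 15,
    ¬ ((5 : ℤ) ∣ DtZ (tbl ![1, 2, 4, 3] s) (tbl ![1, 2, 4, 3] t) (tbl ![1, 2, 4, 3] r)) := by
  decide +kernel

/-- the vectors of a table over a field -/
def vecOf (K : Type v) [Field K] (T : Fin 15 → Fin 3 → ℤ) : ULift.{u} (Fin 15) → Fin 3 → K :=
  fun s i => ((T s.down i : ℤ) : K)

lemma Dt_vecOf (K : Type v) [Field K] (T : Fin 15 → Fin 3 → ℤ) (s t r : ULift.{u} (Fin 15)) :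
    Dt (vecOf K T s) (vecOf K T t) (vecOf K T r) = ((DtZ (T s.down) (T t.down) (T r.down) : ℤ) : K) := by
  simp only [Dt, DtZ, vecOf]
  push_cast
  ring

lemma Dt_vecOf_eq_zero (K : Type v) [Field K] (p : ℕ) [CharP K p] (T : Fin 15 → Fin 3 → ℤ)
    (s t r : ULift.{u} (Fin 15)) :
    Dt (vecOf K T s) (vecOf K T t) (vecOf K T r) = 0 ↔
      (p : ℤ) ∣ DtZ (T s.down) (T t.down) (T r.down) := by
  rw [Dt_vecOf, CharP.intCast_eq_zero_iff K p]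

/-- the example -/
noncomputable def exM : Matroid (ULift.{u} (Fin 15)) :=
  haveI : Fact (Nat.Prime 5) := ⟨by norm_num⟩
  vecMatroid (vecOf (ZMod 5) (tbl ![1, 2, 4, 3]))

theorem exM_spec : IsSimple exM.{u} ∧ exM.{u}.eRank = 3 ∧ exM.{u}.E.encard = 15 ∧
    (haveI : Fact (Nat.Prime 5) := ⟨by norm_num⟩; RepOver (ZMod 5) exM.{u}) ∧
    (∃ (K : Type v) (_ : Field K), CharP K 13 ∧ RepOver K exM.{u}) := by
  haveI h5 : Fact (Nat.Prime 5) := ⟨by norm_num⟩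
  haveI h13 : Fact (Nat.Prime 13) := ⟨by norm_num⟩
  have hsimp : ∀ s t : ULift.{u} (Fin 15), s ≠ t → ∃ r, Dt (vecOf (ZMod 5) (tbl ![1, 2, 4, 3]) s)
      (vecOf (ZMod 5) (tbl ![1, 2, 4, 3]) t) (vecOf (ZMod 5) (tbl ![1, 2, 4, 3]) r) ≠ 0 := by
    intro s t hst
    obtain ⟨r, hr⟩ := tbl_simple s.down t.down (fun h => hst (ULift.down_injective h))
    refine ⟨⟨r⟩, ?_⟩
    rw [Ne, Dt_vecOf_eq_zero (ZMod 5) 5]
    exact hr
  have hv : ∃ s t r : ULift.{u} (Fin 15), Dt (vecOf (ZMod 5) (tbl ![1, 2, 4, 3]) s)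
      (vecOf (ZMod 5) (tbl ![1, 2, 4, 3]) t) (vecOf (ZMod 5) (tbl ![1, 2, 4, 3]) r) ≠ 0 := by
    obtain ⟨r, hr⟩ := hsimp ⟨0⟩ ⟨1⟩ (by
      intro h
      have := congrArg ULift.down h
      simp at this)
    exact ⟨_, _, r, hr⟩
  refine ⟨vec_simple hsimp, vec_rank hv, ?_, vec_rep _, ?_⟩
  · rw [exM, vec_E, encard_univ]
    simp
  · letI : Field (ULift.{v} (ZMod 13)) := inferInstance
    have hc : CharP (ULift.{v} (ZMod 13)) 13 := inferInstance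
    refine ⟨ULift.{v} (ZMod 13), inferInstance, hc, ?_⟩
    apply vec_transfer (v' := vecOf (ULift.{v} (ZMod 13)) (tbl ![1, 5, 12, 8])) _ hv
    intro s t r
    rw [Dt_vecOf_eq_zero (ZMod 5) 5, Dt_vecOf_eq_zero (ULift.{v} (ZMod 13)) 13]
    exact tbl_key _ _ _

end Pool.Agent.Helper61_Gamma
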